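import Mathlib

/-!
# MP_7814b8_co (helper75): O(1) lines cross every pairwise intersecting family of convex sets in R^3

Full proof on paper: `/team-store/MP_7814b8_co_proof_helper75.md` (kappa = 1/1000 there).

Definitions. Points of `R^3` are lifted to `V4` with last coordinate (index 3) equal to 1. A frame is a
positive definite symmetric matrix `g`.

* `ip g x y` is the bilinear form of `g`; `G2`, `G3` are the Gram determinants of two, three vectors.
* `PM g x y` is one half of `B (Bᵀ g B)⁻¹ Bᵀ`, `B = [x y]`; `2 • PM g x y * g` is the `g`-orthogonal projection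
  onto `span (x, y)` and `ip g z z - 2 (g z)·(PM (g z)) = G3 / G2`.
* `Body η C`: `C ⊆ {x 3 = 1}` is convex, compact, nonempty, every point of `C` lies in a three-dimensional
  closed ball of radius `η` which is contained in `C`.
* `Fat g C`: three points of `C` are linearly independent, robustly with respect to `g`.
* `Adm g C x y`: the pair `x, y` of points of `C` spans a plane which almost contains `C` (`thin`) and `x, y` are
  almost as far apart as possible (`diam`). `AdmS` is the strict version.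
-/

set_option autoImplicit false

namespace LT75

open Matrix

abbrev V4 : Type := Fin 4 → ℝ

abbrev M4 : Type := Matrix (Fin 4) (Fin 4) ℝ

/-- the bilinear form of `g` -/
def ip (g : M4) (x y : V4) : ℝ := x ⬝ᵥ (g *ᵥ y)

/-- positive semidefinite -/
def PSD (g : M4) : Prop := gᵀ = g ∧ ∀ x : V4, 0 ≤ ip g x x

/-- positive definite -/
def PD (g : M4) : Prop := gᵀ = g ∧ ∀ x : V4, x ≠ 0 → 0 < ip g x x

/-- Gram determinant of two vectors -/
def G2 (g : M4) (x y : V4) : ℝ := ip g x x * ip g y y - ip g x y ^ 2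

/-- Gram determinant of three vectors -/
def G3 (g : M4) (x y z : V4) : ℝ :=
  ip g x x * ip g y y * ip g z z + 2 * (ip g x y * ip g y z * ip g x z)
    - ip g x x * ip g y z ^ 2 - ip g y y * ip g x z ^ 2 - ip g z z * ip g x y ^ 2

/-- half of `B (Bᵀ g B)⁻¹ Bᵀ` for `B = [x y]` -/
noncomputable def PM (g : M4) (x y : V4) : M4 :=
  (1 / (2 * G2 g x y)) • (ip g y y • vecMulVec x x
    - ip g x y • (vecMulVec x y + vecMulVec y x) + ip g x x • vecMulVec y y)

structure Body (η : ℝ) (C : Set V4) : Prop where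
  ne : C.Nonempty
  conv : Convex ℝ C
  comp : IsCompact C
  last : ∀ x ∈ C, x 3 = 1
  ball : ∀ x ∈ C, ∃ q : V4, q 3 = 1 ∧ (x - q) ⬝ᵥ (x - q) ≤ η ^ 2 ∧
    ∀ y : V4, y 3 = 1 → (y - q) ⬝ᵥ (y - q) ≤ η ^ 2 → y ∈ C

/-- robustly three points of `C` are independent -/
def Fat (g : M4) (C : Set V4) : Prop :=
  ∃ x ∈ C, ∃ y ∈ C, ∃ z ∈ C, ip g x x * ip g y y * ip g z z < 4000000 * G3 g x y z

structure Adm (g : M4) (C : Set V4) (x y : V4) : Prop where
  hx : x ∈ C
  hy : y ∈ C
  pos : 0 < G2 g x y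
  thin : ∀ z ∈ C, 1000 * G3 g x y z ≤ G2 g x y * ip g z z
  diam : ∀ u ∈ C, ∀ v ∈ C,
    G2 g u v * (ip g x x * ip g y y) ≤ 2 * G2 g x y * (ip g u u * ip g v v)

structure AdmS (g : M4) (C : Set V4) (x y : V4) : Prop where
  hx : x ∈ C
  hy : y ∈ C
  pos : 0 < G2 g x y
  thin : ∀ z ∈ C, 2000 * G3 g x y z ≤ G2 g x y * ip g z z
  diam : ∀ u ∈ C, ∀ v ∈ C,
    G2 g u v * (ip g x x * ip g y y) ≤ G2 g x y * (ip g u u * ip g v v)

end LT75
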