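import Pool.Agent.LT93.BrouwerS
import Pool.Agent.LT75.Defs

/-!
# Module LT-BR3 (MP_7814b8_co, helper75): Brouwer's theorem for compact convex sets, in particular of matrices

Both statements are special cases of `LT93.brouwerS` (helper87).
-/

set_option autoImplicit false

namespace LT75

theorem brouwer_convex (n : ℕ) (K : Set (EuclideanSpace ℝ (Fin n))) (hK : IsCompact K)
    (hc : Convex ℝ K) (hne : K.Nonempty)
    (f : EuclideanSpace ℝ (Fin n) → EuclideanSpace ℝ (Fin n)) (hf : ContinuousOn f K)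
    (hm : Set.MapsTo f K K) : ∃ x ∈ K, f x = x :=
  LT93.brouwerS hK hc hne hf hm

theorem brouwer_M4 (K : Set M4) (hK : IsCompact K) (hc : Convex ℝ K) (hne : K.Nonempty)
    (f : M4 → M4) (hf : ContinuousOn f K) (hm : Set.MapsTo f K K) : ∃ S ∈ K, f S = S :=
  LT93.brouwerS (E := Fin 4 → Fin 4 → ℝ) (C := K) hK hc hne hf hm

end LT75
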