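import Pool.Agent.LT75.Onb

/-!
# Module LT-BESSEL (MP_7814b8_co, helper75): three nearly orthogonal vectors are not near a plane

`bessel`: Let `G2 g x y > 0` and let `z j` (`j : Fin 3`) be nonzero with `|cos| ≤ 1/8` pairwise. Then it is impossible that
`1000 * G3 g x y (z j) ≤ G2 g x y * ip g (z j) (z j)` for all `j`. Proof: Euclidean coordinates (`exists_sqrt`), unit vectors
`z j`; `|P z|² = (u·z)² + (v·z)²` for an orthonormal basis `u, v` of the plane (`exists_onb`, `PM_quad`).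
For a unit vector `u`: `a_j = u·z_j`, `A = ∑ a_j²`; `A² = (u·∑ a_j z_j)² ≤ |∑ a_j z_j|² = A + 2 ∑_{j<k} a_j a_k z_j·z_k ≤ A (1 + 2/8)`
(as `∑_{j<k} |a_j a_k| ≤ A`), so `A ≤ 5/4`. So `∑ |P z_j|² ≤ 5/2`, but it is `≥ 3 (1 - 1/1000)`.

-/

set_option autoImplicit false

namespace LT75

open Matrix Filter Topology

private theorem bessel_abp {a b p : ℝ} (hp : 64 * p ^ 2 ≤ 1) :
    2 * (a * b * p) ≤ (a ^ 2 + b ^ 2) / 8 := by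
  have h1 : 0 ≤ 1 / 8 + p := by nlinarith [sq_nonneg (8 * p + 1), sq_nonneg (8 * p - 1)]
  have h2 : 0 ≤ 1 / 8 - p := by nlinarith [sq_nonneg (8 * p + 1), sq_nonneg (8 * p - 1)]
  nlinarith [mul_nonneg h1 (sq_nonneg (a - b)), mul_nonneg h2 (sq_nonneg (a + b))]

/-- the Bessel inequality for three nearly orthogonal unit vectors -/
private theorem bessel_unit {u w0 w1 w2 : V4} (hu : u ⬝ᵥ u = 1) (h0 : w0 ⬝ᵥ w0 = 1)
    (h1 : w1 ⬝ᵥ w1 = 1) (h2 : w2 ⬝ᵥ w2 = 1) (h01 : 64 * (w0 ⬝ᵥ w1) ^ 2 ≤ 1)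
    (h02 : 64 * (w0 ⬝ᵥ w2) ^ 2 ≤ 1) (h12 : 64 * (w1 ⬝ᵥ w2) ^ 2 ≤ 1) :
    (u ⬝ᵥ w0) ^ 2 + (u ⬝ᵥ w1) ^ 2 + (u ⬝ᵥ w2) ^ 2 ≤ 5 / 4 := by
  set a := u ⬝ᵥ w0 with ha
  set b := u ⬝ᵥ w1 with hb
  set c := u ⬝ᵥ w2 with hc
  have hcs := G2_nonneg pd_one.psd u (a • w0 + b • w1 + c • w2)
  simp only [G2, ip_one] at hcs
  have e1 : u ⬝ᵥ (a • w0 + b • w1 + c • w2) = a ^ 2 + b ^ 2 + c ^ 2 := by
    rw [dotProduct_add, dotProduct_add, dotProduct_smul, dotProduct_smul, dotProduct_smul,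
      ← ha, ← hb, ← hc]
    simp only [smul_eq_mul]
    ring
  have e2 : (a • w0 + b • w1 + c • w2) ⬝ᵥ (a • w0 + b • w1 + c • w2)
      = a ^ 2 + b ^ 2 + c ^ 2 + 2 * (a * b * (w0 ⬝ᵥ w1)) + 2 * (a * c * (w0 ⬝ᵥ w2))
        + 2 * (b * c * (w1 ⬝ᵥ w2)) := by
    simp only [dotProduct_add, add_dotProduct, dotProduct_smul, smul_dotProduct, smul_eq_mul,
      h0, h1, h2]
    rw [dotProduct_comm w1 w0, dotProduct_comm w2 w0, dotProduct_comm w2 w1]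
    ring
  rw [hu, e1, e2] at hcs
  have k1 := bessel_abp (a := a) (b := b) h01
  have k2 := bessel_abp (a := a) (b := c) h02
  have k3 := bessel_abp (a := b) (b := c) h12
  by_contra hcon
  push Not at hcon
  nlinarith

theorem bessel {g : M4} (hg : PD g) {x y : V4} (h : 0 < G2 g x y) (z : Fin 3 → V4)
    (hz : ∀ j, 0 < ip g (z j) (z j))
    (hcos : ∀ j k, j ≠ k → 64 * ip g (z j) (z k) ^ 2 ≤ ip g (z j) (z j) * ip g (z k) (z k))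
    (hthin : ∀ j, 1000 * G3 g x y (z j) ≤ G2 g x y * ip g (z j) (z j)) : False := by
  obtain ⟨A, -, rfl⟩ := exists_sqrt hg
  simp only [ip_conj, ip_one] at hz hcos
  rw [G2_conj] at h
  simp only [G2_conj, G3_conj, ip_conj, ip_one] at hthin
  set X := A *ᵥ x with hX
  set Y := A *ᵥ y with hY
  obtain ⟨u, v, hu, hv, -, -, -, hPM, -⟩ := exists_onb h 0
  -- the projection
  have hproj : ∀ Z : V4, (u ⬝ᵥ Z) ^ 2 + (v ⬝ᵥ Z) ^ 2 = Z ⬝ᵥ Z - G3 1 X Y Z / G2 1 X Y := by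
    intro Z
    have h1 := PM_quad (g := (1 : M4)) transpose_one h.ne' Z
    rw [one_mul, mul_one, ← ip_smul_mat, hPM, ip_one] at h1
    rw [← h1]
    simp only [ip, add_mulVec, dotProduct_add, vecMulVec_mulVec, dotProduct_smul]
    simp only [dotProduct_comm Z u, dotProduct_comm Z v]
    simp [sq]
  have hproj2 : ∀ j, (1 - 1 / 1000) * ((A *ᵥ z j) ⬝ᵥ (A *ᵥ z j))
      ≤ (u ⬝ᵥ (A *ᵥ z j)) ^ 2 + (v ⬝ᵥ (A *ᵥ z j)) ^ 2 := by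
    intro j
    rw [hproj]
    have h1 : G3 1 X Y (A *ᵥ z j) / G2 1 X Y ≤ 1 / 1000 * ((A *ᵥ z j) ⬝ᵥ (A *ᵥ z j)) := by
      rw [div_le_iff₀ h]
      have := hthin j
      nlinarith
    linarith
  -- normalise
  set s : Fin 3 → ℝ := fun j => (Real.sqrt ((A *ᵥ z j) ⬝ᵥ (A *ᵥ z j)))⁻¹ with hs
  have hs2 : ∀ j, s j ^ 2 * ((A *ᵥ z j) ⬝ᵥ (A *ᵥ z j)) = 1 := by
    intro j
    rw [hs]
    simp only
    rw [inv_pow, Real.sq_sqrt (hz j).le, inv_mul_cancel₀ (hz j).ne']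
  set w : Fin 3 → V4 := fun j => s j • (A *ᵥ z j) with hw
  have hww : ∀ j, w j ⬝ᵥ w j = 1 := by
    intro j
    rw [hw]
    simp only [dotProduct_smul, smul_dotProduct, smul_eq_mul]
    rw [← hs2 j]
    ring
  have hwc : ∀ j k, j ≠ k → 64 * (w j ⬝ᵥ w k) ^ 2 ≤ 1 := by
    intro j k hjk
    rw [hw]
    simp only [dotProduct_smul, smul_dotProduct, smul_eq_mul]
    have h1 := mul_le_mul_of_nonneg_left (hcos j k hjk) (mul_nonneg (sq_nonneg (s j)) (sq_nonneg (s k)))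
    calc 64 * (s k * (s j * (A *ᵥ z j ⬝ᵥ A *ᵥ z k))) ^ 2
        = s j ^ 2 * s k ^ 2 * (64 * (A *ᵥ z j ⬝ᵥ A *ᵥ z k) ^ 2) := by ring
      _ ≤ s j ^ 2 * s k ^ 2 * ((A *ᵥ z j ⬝ᵥ A *ᵥ z j) * (A *ᵥ z k ⬝ᵥ A *ᵥ z k)) := h1
      _ = (s j ^ 2 * (A *ᵥ z j ⬝ᵥ A *ᵥ z j)) * (s k ^ 2 * (A *ᵥ z k ⬝ᵥ A *ᵥ z k)) := by ring
      _ = 1 := by rw [hs2, hs2, one_mul]
  have hwp : ∀ j, 1 - 1 / 1000 ≤ (u ⬝ᵥ w j) ^ 2 + (v ⬝ᵥ w j) ^ 2 := by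
    intro j
    have h1 := mul_le_mul_of_nonneg_left (hproj2 j) (sq_nonneg (s j))
    rw [hw]
    simp only [dotProduct_smul, smul_eq_mul]
    calc (1 : ℝ) - 1 / 1000 = (1 - 1 / 1000) * (s j ^ 2 * (A *ᵥ z j ⬝ᵥ A *ᵥ z j)) := by
          rw [hs2, mul_one]
      _ = s j ^ 2 * ((1 - 1 / 1000) * (A *ᵥ z j ⬝ᵥ A *ᵥ z j)) := by ring
      _ ≤ _ := h1
      _ = _ := by ring
  have b1 := bessel_unit hu (hww 0) (hww 1) (hww 2) (hwc 0 1 (by decide)) (hwc 0 2 (by decide))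
    (hwc 1 2 (by decide))
  have b2 := bessel_unit hv (hww 0) (hww 1) (hww 2) (hwc 0 1 (by decide)) (hwc 0 2 (by decide))
    (hwc 1 2 (by decide))
  linarith [hwp 0, hwp 1, hwp 2]

end LT75
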