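import Pool.Agent.LT75.Gram2

/-!
# Module LT-CHOL (MP_7814b8_co, helper75): change of coordinates `g = Aᵀ A`

`exists_sqrt`: from Mathlib (`Matrix.PosSemidef`/`PosDef` API: square root, or
`posSemidef_iff_eq_conjTranspose_mul_self`), over `ℝ` the conjugate transpose is the transpose.
`PM_conj`: direct from `ip_conj` (`vecMulVec (A x) (A y) = A * vecMulVec x y * Aᵀ`).
-/

set_option autoImplicit false

namespace LT75

open Matrix

open scoped MatrixOrder in
theorem exists_sqrt {g : M4} (hg : PD g) : ∃ A : M4, IsUnit A.det ∧ Aᵀ * A = g := by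
  obtain ⟨B, hB⟩ := CStarAlgebra.nonneg_iff_eq_star_mul_self.mp hg.posDef.posSemidef.nonneg
  rw [star_eq_conjTranspose, conjTranspose_eq_transpose_of_trivial] at hB
  refine ⟨B, ?_, hB.symm⟩
  have h1 : 0 < g.det := hg.posDef.det_pos
  rw [hB, det_mul, det_transpose] at h1
  rw [isUnit_iff_ne_zero]
  intro h0
  rw [h0] at h1
  simp at h1

theorem ip_conj (A : M4) (x y : V4) : ip (Aᵀ * A) x y = ip 1 (A *ᵥ x) (A *ᵥ y) := by
  unfold ip
  rw [one_mulVec, ← mulVec_mulVec, dotProduct_mulVec, vecMul_transpose]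

theorem ip_one (x y : V4) : ip 1 x y = x ⬝ᵥ y := by
  unfold ip
  rw [one_mulVec]

theorem pd_one : PD (1 : M4) := by
  refine ⟨transpose_one, ?_⟩
  intro x hx
  rw [ip_one]
  have h : 0 ≤ x ⬝ᵥ x := Finset.sum_nonneg fun j _ => mul_self_nonneg _
  refine lt_of_le_of_ne h ?_
  intro h0
  exact hx (dotProduct_self_eq_zero.mp h0.symm)

theorem pd_conj {A : M4} (hA : IsUnit A.det) : PD (Aᵀ * A) := by
  refine ⟨?_, ?_⟩
  · rw [transpose_mul, transpose_transpose]
  · intro x hx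
    rw [ip_conj]
    apply pd_one.2
    intro h0
    apply hx
    have : A⁻¹ *ᵥ (A *ᵥ x) = 0 := by rw [h0, mulVec_zero]
    rwa [mulVec_mulVec, nonsing_inv_mul A hA, one_mulVec] at this

theorem G2_conj (A : M4) (x y : V4) : G2 (Aᵀ * A) x y = G2 1 (A *ᵥ x) (A *ᵥ y) := by
  unfold G2
  rw [ip_conj, ip_conj, ip_conj]

theorem G3_conj (A : M4) (x y z : V4) :
    G3 (Aᵀ * A) x y z = G3 1 (A *ᵥ x) (A *ᵥ y) (A *ᵥ z) := by
  unfold G3
  simp only [ip_conj]

theorem PM_conj (A : M4) (x y : V4) :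
    A * PM (Aᵀ * A) x y * Aᵀ = PM 1 (A *ᵥ x) (A *ᵥ y) := by
  have h : ∀ a b : V4, A * vecMulVec a b * Aᵀ = vecMulVec (A *ᵥ a) (A *ᵥ b) := by
    intro a b
    rw [mul_vecMulVec, vecMulVec_mul, vecMul_transpose]
  unfold PM
  rw [G2_conj]
  simp only [mul_smul_comm, smul_mul_assoc, mul_add, mul_sub, add_mul, sub_mul, h, ip_conj]


end LT75
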