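import Pool.Agent.LT75.StageH

/-!
# Module LT-RANK12 (MP_7814b8_co, helper75): the kernel of the limit matrix has dimension exactly one

`Γ` is PSD with eigenvalues `γ_j ∈ [0,1]` and orthonormal eigenvectors `o_j` (spectral theorem,
`Matrix.IsHermitian.eigenvectorBasis`). `J = {j | γ_j > 0}`. `Γ S = 0`, `S ≠ 0` gives `J ≠ univ`. Claim `|J| = 3`.
`lemma quad_le`: `PSD H`, `PSD (φ Γ - H)` imply `H x x ≤ (∑_{j∈J} H o_j o_j / γ_j) * Γ x x`: for `j ∉ J`, `H o_j o_j ≤ φ γ_j = 0`,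
so `H o_j = 0` (`PSD.ker`); so `H x x = H x' x'` with `x' = ∑_{J} x_j o_j`, and by Cauchy-Schwarz for `H` (`G2_nonneg`)
`H x' x' ≤ (∑_J |x_j| sqrt (H o_j o_j))² ≤ (∑_J γ_j x_j²) (∑_J H o_j o_j/γ_j)`.
For each `i` take `z_i ∈ C i` with `Γ z_i z_i > 0` (`Body.exists_pos`; `Γ ≠ 0` as its trace is `≥ 1/5`). `thin` gives
`(1 - κ) φ i ≤ ∑_{j∈J} (H i) o_j o_j/γ_j`. Sum over `i`, `sum`: `(4 - t) (1 - κ) ≤ 2 ∑_{j∈J} (γ_j - γ_j²)/γ_j = 2 (|J| - t)`,
`t = tr Γ = ∑ γ_j`. If `|J| ≤ 2`: `(4 - t)(1 - κ) ≤ 4 - 2 t`, so `t (1 + κ) ≤ 4 κ`, contradicting `t ≥ 1/5`. So `|J| = 3` and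
the kernel is spanned by the remaining eigenvector (`ip Γ v v = ∑ γ_j v_j² = 0` gives `v_j = 0` for `j ∈ J`).
-/

set_option autoImplicit false

namespace LT75

open Matrix

/-- the spectral theorem for a PSD `4 × 4` matrix, in coordinates -/
private theorem rk_spectral {Γ : M4} (hΓ : PSD Γ) :
    ∃ (γ : Fin 4 → ℝ) (o : Fin 4 → V4),
      (∀ i j, o i ⬝ᵥ o j = if i = j then 1 else 0) ∧
      (∀ v : V4, v = ∑ j, (o j ⬝ᵥ v) • o j) ∧
      (∀ j, Γ *ᵥ o j = γ j • o j) ∧ Γ.trace = ∑ j, γ j := by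
  have hH : Γ.IsHermitian := hΓ.posSemidef.isHermitian
  refine ⟨hH.eigenvalues, fun j => (hH.eigenvectorBasis j).ofLp, ?_, ?_, ?_, ?_⟩
  · intro i j
    have h1 := (orthonormal_iff_ite.mp hH.eigenvectorBasis.orthonormal) j i
    rw [EuclideanSpace.inner_eq_star_dotProduct] at h1
    simp only [star_trivial] at h1
    rw [h1]
    by_cases hij : i = j
    · simp [hij]
    · simp [hij, Ne.symm hij]
  · intro v
    have h1 := hH.eigenvectorBasis.sum_repr' (WithLp.toLp 2 v)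
    have h2 := congrArg (fun u : EuclideanSpace ℝ (Fin 4) => u.ofLp) h1
    simp only [WithLp.ofLp_sum, WithLp.ofLp_smul] at h2
    conv_lhs => rw [← h2]
    refine Finset.sum_congr rfl fun j _ => ?_
    rw [EuclideanSpace.inner_eq_star_dotProduct]
    simp only [star_trivial]
    rw [dotProduct_comm]
  · intro j
    exact hH.mulVec_eigenvectorBasis j
  · have := hH.trace_eq_sum_eigenvalues
    simpa using this

private theorem rk_ip_diag {Γ : M4} {γ : Fin 4 → ℝ} {o : Fin 4 → V4}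
    (hv : ∀ v : V4, v = ∑ j, (o j ⬝ᵥ v) • o j)
    (hγ : ∀ j, Γ *ᵥ o j = γ j • o j) (v : V4) :
    ip Γ v v = ∑ j, γ j * (o j ⬝ᵥ v) ^ 2 := by
  have h1 : Γ *ᵥ v = ∑ j, (γ j * (o j ⬝ᵥ v)) • o j := by
    conv_lhs => rw [hv v]
    rw [mulVec_sum]
    refine Finset.sum_congr rfl fun j _ => ?_
    rw [mulVec_smul, hγ j, smul_smul, mul_comm]
  unfold ip
  rw [h1, dotProduct_sum]
  refine Finset.sum_congr rfl fun j _ => ?_
  rw [dotProduct_smul, dotProduct_comm v (o j), smul_eq_mul]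
  ring

private theorem rk_quad_le {Γ H : M4} {φ : ℝ} (hH : PSD H)
    (hH1 : PSD (φ • Γ - H)) {γ : Fin 4 → ℝ} {o : Fin 4 → V4}
    (ho : ∀ i j, o i ⬝ᵥ o j = if i = j then 1 else 0)
    (hv : ∀ v : V4, v = ∑ j, (o j ⬝ᵥ v) • o j)
    (hγ : ∀ j, Γ *ᵥ o j = γ j • o j) (hγ0 : ∀ j, 0 ≤ γ j) (x : V4) :
    ip H x x ≤ (∑ j ∈ Finset.univ.filter (fun j => 0 < γ j), ip H (o j) (o j) / γ j) *
      ip Γ x x := by
  classical
  set J := Finset.univ.filter (fun j => 0 < γ j) with hJ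
  have hjj : ∀ j, ip Γ (o j) (o j) = γ j := by
    intro j
    unfold ip
    rw [hγ j, dotProduct_smul, ho j j]
    simp
  have hker : ∀ j, j ∉ J → H *ᵥ o j = 0 := by
    intro j hj
    have hj0 : γ j = 0 := by
      have : ¬ 0 < γ j := by
        intro h
        exact hj (by simp [hJ, h])
      exact le_antisymm (not_lt.mp this) (hγ0 j)
    have h1 := hH1.2 (o j)
    rw [ip_sub_mat, ip_smul_mat, hjj, hj0] at h1
    have h2 := hH.2 (o j)
    exact hH.ker (by linarith)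
  have hHx : H *ᵥ x = ∑ j ∈ J, (o j ⬝ᵥ x) • (H *ᵥ o j) := by
    conv_lhs => rw [hv x]
    rw [mulVec_sum]
    rw [← Finset.sum_subset (Finset.subset_univ J)]
    · refine Finset.sum_congr rfl fun j _ => ?_
      rw [mulVec_smul]
    · intro j _ hj
      rw [mulVec_smul, hker j hj, smul_zero]
  have hsymm : ∀ j, x ⬝ᵥ (H *ᵥ o j) = o j ⬝ᵥ (H *ᵥ x) := fun j => ip_comm hH.1 x (o j)
  have hexp : ip H x x = ∑ j ∈ J, ∑ k ∈ J, (o j ⬝ᵥ x) * (o k ⬝ᵥ x) * ip H (o j) (o k) := by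
    have h1 : ip H x x = ∑ j ∈ J, (o j ⬝ᵥ x) * (o j ⬝ᵥ (H *ᵥ x)) := by
      have : ip H x x = x ⬝ᵥ (H *ᵥ x) := rfl
      rw [this]
      conv_lhs => rw [hHx]
      rw [dotProduct_sum]
      refine Finset.sum_congr rfl fun j _ => ?_
      rw [dotProduct_smul, hsymm j, smul_eq_mul]
    rw [h1]
    refine Finset.sum_congr rfl fun j _ => ?_
    rw [hHx, dotProduct_sum, Finset.mul_sum]
    refine Finset.sum_congr rfl fun k _ => ?_
    rw [dotProduct_smul, smul_eq_mul]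
    unfold ip
    ring
  have hle1 : ip H x x ≤ (∑ j ∈ J, |o j ⬝ᵥ x| * Real.sqrt (ip H (o j) (o j))) ^ 2 := by
    rw [hexp, sq, Finset.sum_mul_sum]
    refine Finset.sum_le_sum fun j _ => Finset.sum_le_sum fun k _ => ?_
    have hcs := G2_nonneg hH (o j) (o k)
    unfold G2 at hcs
    have h1 : |ip H (o j) (o k)| ≤
        Real.sqrt (ip H (o j) (o j)) * Real.sqrt (ip H (o k) (o k)) := by
      rw [← Real.sqrt_mul (hH.2 _)]
      apply Real.abs_le_sqrt
      linarith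
    calc (o j ⬝ᵥ x) * (o k ⬝ᵥ x) * ip H (o j) (o k)
        ≤ |(o j ⬝ᵥ x) * (o k ⬝ᵥ x) * ip H (o j) (o k)| := le_abs_self _
      _ = |o j ⬝ᵥ x| * |o k ⬝ᵥ x| * |ip H (o j) (o k)| := by rw [abs_mul, abs_mul]
      _ ≤ |o j ⬝ᵥ x| * |o k ⬝ᵥ x| *
          (Real.sqrt (ip H (o j) (o j)) * Real.sqrt (ip H (o k) (o k))) :=
        mul_le_mul_of_nonneg_left h1 (mul_nonneg (abs_nonneg _) (abs_nonneg _))
      _ = |o j ⬝ᵥ x| * Real.sqrt (ip H (o j) (o j)) *
          (|o k ⬝ᵥ x| * Real.sqrt (ip H (o k) (o k))) := by ring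
  have hle2 : (∑ j ∈ J, |o j ⬝ᵥ x| * Real.sqrt (ip H (o j) (o j))) ^ 2 ≤
      (∑ j ∈ J, γ j * (o j ⬝ᵥ x) ^ 2) * (∑ j ∈ J, ip H (o j) (o j) / γ j) := by
    have h1 : ∀ j ∈ J, |o j ⬝ᵥ x| * Real.sqrt (ip H (o j) (o j)) =
        (Real.sqrt (γ j) * |o j ⬝ᵥ x|) * (Real.sqrt (ip H (o j) (o j)) / Real.sqrt (γ j)) := by
      intro j hj
      have hjpos : 0 < γ j := by simpa [hJ] using hj
      have : Real.sqrt (γ j) ≠ 0 := (Real.sqrt_pos.mpr hjpos).ne'
      field_simp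
    rw [Finset.sum_congr rfl h1]
    refine (Finset.sum_mul_sq_le_sq_mul_sq J _ _).trans (le_of_eq ?_)
    congr 1
    · refine Finset.sum_congr rfl fun j _ => ?_
      rw [mul_pow, Real.sq_sqrt (hγ0 j), sq_abs]
    · refine Finset.sum_congr rfl fun j _ => ?_
      rw [div_pow, Real.sq_sqrt (hγ0 j), Real.sq_sqrt (hH.2 _)]
  have hdiag : ip Γ x x = ∑ j ∈ J, γ j * (o j ⬝ᵥ x) ^ 2 := by
    rw [rk_ip_diag hv hγ x]
    rw [← Finset.sum_subset (Finset.subset_univ J)]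
    intro j _ hj
    have hj0 : γ j = 0 := by
      have : ¬ 0 < γ j := by
        intro h
        exact hj (by simp [hJ, h])
      exact le_antisymm (not_lt.mp this) (hγ0 j)
    rw [hj0, zero_mul]
  rw [hdiag, mul_comm]
  exact hle1.trans hle2

theorem ker_dim_one {ι : Type} [Fintype ι] {η : ℝ} (hη : 0 < η) (C : ι → Set V4)
    (hC : ∀ i, Body η (C i)) {S Γ : M4} {φ : ι → ℝ} {H : ι → M4} (h : StageH C 0 S Γ φ H) :
    ∃ n₀ : V4, n₀ ≠ 0 ∧ Γ *ᵥ n₀ = 0 ∧ ∀ v, ip Γ v v = 0 → ∃ s : ℝ, v = s • n₀ := by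
  classical
  obtain ⟨γ, o, ho, hv, hγ, htr⟩ := rk_spectral h.hΓ
  have hjj : ∀ j, ip Γ (o j) (o j) = γ j := by
    intro j
    unfold ip
    rw [hγ j, dotProduct_smul, ho j j]
    simp
  have hγ0 : ∀ j, 0 ≤ γ j := fun j => by
    rw [← hjj j]
    exact h.hΓ.2 _
  have hγ1 : ∀ j, γ j ≤ 1 := fun j => by
    have h1 := h.hΓ1.2 (o j)
    rw [ip_sub_mat, hjj] at h1
    have h2 : ip (1 : M4) (o j) (o j) = 1 := by
      unfold ip
      rw [one_mulVec, ho j j]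
      simp
    rw [h2] at h1
    linarith
  set J := Finset.univ.filter (fun j => 0 < γ j) with hJ
  have hJc : ∀ j, j ∉ J → γ j = 0 := by
    intro j hj
    have : ¬ 0 < γ j := by
      intro h
      exact hj (by simp [hJ, h])
    exact le_antisymm (not_lt.mp this) (hγ0 j)
  have hker0 : ∀ v, ip Γ v v = 0 → ∀ j ∈ J, o j ⬝ᵥ v = 0 := by
    intro v hv0 j hj
    have hjpos : 0 < γ j := by simpa [hJ] using hj
    rw [rk_ip_diag hv hγ v] at hv0
    have h1 := (Finset.sum_eq_zero_iff_of_nonneg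
      (fun k _ => mul_nonneg (hγ0 k) (sq_nonneg _))).mp hv0 j (Finset.mem_univ j)
    rcases mul_eq_zero.mp h1 with h2 | h2
    · exact absurd h2 hjpos.ne'
    · exact pow_eq_zero_iff (two_ne_zero) |>.mp h2
  -- `J ≠ univ`
  have hJne : ∃ j₀, j₀ ∉ J := by
    by_contra hcon
    push Not at hcon
    have hΓS : Γ * S = 0 := by
      have := h.hmul
      simpa using this
    have hS0 : S = 0 := by
      ext a b
      have h1 : Γ *ᵥ (S *ᵥ Pi.single b 1) = 0 := by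
        rw [mulVec_mulVec, hΓS, zero_mulVec]
      have h2 : ip Γ (S *ᵥ Pi.single b 1) (S *ᵥ Pi.single b 1) = 0 := by
        unfold ip
        rw [h1, dotProduct_zero]
      have h3 : S *ᵥ Pi.single b 1 = 0 := by
        rw [hv (S *ᵥ Pi.single b 1)]
        refine Finset.sum_eq_zero fun j _ => ?_
        rw [hker0 _ h2 j (hcon j), zero_smul]
      have h4 := congrFun h3 a
      simpa using h4
    have := h.trS
    rw [hS0] at this
    simp at this
  obtain ⟨j₀, hj₀⟩ := hJne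
  -- `t = ∑_J γ_j`
  have htJ : Γ.trace = ∑ j ∈ J, γ j := by
    rw [htr, ← Finset.sum_subset (Finset.subset_univ J)]
    intro j _ hj
    exact hJc j hj
  have ht4 : Γ.trace ≤ 4 := by
    rw [htr]
    calc ∑ j, γ j ≤ ∑ _j : Fin 4, (1 : ℝ) := Finset.sum_le_sum fun j _ => hγ1 j
      _ = 4 := by simp
  have hΓne : Γ ≠ 0 := by
    intro h0
    have := h.trΓ
    rw [h0] at this
    simp at this
    norm_num at this
  -- pointwise inequality
  have hpt : ∀ i, (1 - 1 / 1000) * φ i ≤ ∑ j ∈ J, ip (H i) (o j) (o j) / γ j := by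
    intro i
    obtain ⟨z, hz, hzpos⟩ := (hC i).exists_pos hη h.hΓ hΓne
    have h1 := h.thin i z hz
    have h2 := rk_quad_le (h.H0 i) (h.H1 i) ho hv hγ hγ0 z
    have h3 : ((1 - 1 / 1000) * φ i) * ip Γ z z ≤
        (∑ j ∈ J, ip (H i) (o j) (o j) / γ j) * ip Γ z z := by
      calc ((1 - 1 / 1000) * φ i) * ip Γ z z = (1 - 1 / 1000) * (φ i * ip Γ z z) := by ring
        _ ≤ ip (H i) z z := h1
        _ ≤ _ := h2
    exact le_of_mul_le_mul_right h3 hzpos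
  have hsum : (4 - Γ.trace) * (1 - 1 / 1000) ≤ 2 * ((J.card : ℝ) - Γ.trace) := by
    have h1 : (1 - 1 / 1000 : ℝ) ≤ ∑ j ∈ J, (∑ i, ip (H i) (o j) (o j)) / γ j := by
      calc (1 - 1 / 1000 : ℝ) = ∑ i, (1 - 1 / 1000) * φ i := by
            rw [← Finset.mul_sum, h.φ1, mul_one]
        _ ≤ ∑ i, ∑ j ∈ J, ip (H i) (o j) (o j) / γ j := Finset.sum_le_sum fun i _ => hpt i
        _ = ∑ j ∈ J, ∑ i, ip (H i) (o j) (o j) / γ j := Finset.sum_comm
        _ = ∑ j ∈ J, (∑ i, ip (H i) (o j) (o j)) / γ j :=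
            Finset.sum_congr rfl fun j _ => by rw [Finset.sum_div]
    have h2 : ∀ j ∈ J, (4 - Γ.trace) * ((∑ i, ip (H i) (o j) (o j)) / γ j) =
        2 * (1 - γ j) := by
      intro j hj
      have hjpos : 0 < γ j := by simpa [hJ] using hj
      have h3 : (4 - Γ.trace) * (∑ i, ip (H i) (o j) (o j)) = 2 * (γ j - γ j ^ 2) := by
        rw [← ip_sum_mat, ← ip_smul_mat, h.sum, ip_smul_mat, ip_sub_mat, hjj]
        have h4 : ip (Γ * Γ) (o j) (o j) = γ j ^ 2 := by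
          unfold ip
          rw [← mulVec_mulVec, hγ j, mulVec_smul, hγ j, dotProduct_smul, dotProduct_smul, ho j j]
          simp [sq]
        rw [h4]
      rw [← mul_div_assoc, h3]
      field_simp
    calc (4 - Γ.trace) * (1 - 1 / 1000)
        ≤ (4 - Γ.trace) * ∑ j ∈ J, (∑ i, ip (H i) (o j) (o j)) / γ j :=
          mul_le_mul_of_nonneg_left h1 (by linarith)
      _ = ∑ j ∈ J, 2 * (1 - γ j) := by
          rw [Finset.mul_sum]
          exact Finset.sum_congr rfl h2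
      _ = 2 * ((J.card : ℝ) - Γ.trace) := by
          rw [← Finset.mul_sum, Finset.sum_sub_distrib, ← htJ]
          simp
  have htpos := h.trΓ
  have hcard : 3 ≤ J.card := by
    by_contra hlt
    have h1 : J.card ≤ 2 := by omega
    have h2 : (J.card : ℝ) ≤ 2 := by exact_mod_cast h1
    nlinarith
  have hall : ∀ j, j ≠ j₀ → j ∈ J := by
    intro j hj
    by_contra hjJ
    have hsub : J ⊆ (Finset.univ.erase j₀).erase j := by
      intro k hk
      simp only [Finset.mem_erase, Finset.mem_univ, and_true]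
      exact ⟨fun h => hjJ (h ▸ hk), fun h => hj₀ (h ▸ hk)⟩
    have h1 := Finset.card_le_card hsub
    rw [Finset.card_erase_of_mem (by simp [hj]), Finset.card_erase_of_mem (by simp)] at h1
    simp at h1
    omega
  refine ⟨o j₀, ?_, ?_, ?_⟩
  · intro h0
    have := ho j₀ j₀
    rw [h0] at this
    simp at this
  · rw [hγ j₀, hJc j₀ hj₀, zero_smul]
  · intro v hv0
    refine ⟨o j₀ ⬝ᵥ v, ?_⟩
    conv_lhs => rw [hv v]
    rw [Finset.sum_eq_single j₀]
    · intro j _ hj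
      rw [hker0 v hv0 j (hall j hj), zero_smul]
    · intro hh
      exact absurd (Finset.mem_univ j₀) hh

end LT75
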