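import Pool.Agent.LT75.Gram2

/-!
# Module LT-SELECT (MP_7814b8_co, helper75): a body which is not fat has a strictly admissible pair, and
# admissibility is open

`exists_admS`: on the compact set `C ×ˢ C` the continuous function `G2 g x y / (ip g x x * ip g y y)`
(denominator positive, `Body.ne_zero`) has a maximum `m2`, attained at `(x, y)`; it is positive since a body
contains two independent points (`Body.exists_G2_pos` with `n₀ = 0`, `g` positive definite). `diam` is the
maximality. `thin`: for `z ∈ C` let `ρ = G3 g x y z / (G2 g x y * ip g z z)`. By `G3_fischer`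
`G3 * gxx ≤ G2(x,y) G2(x,z)`, so `ρ ≤ G2(x,z)/(gxx gzz) ≤ m2`. Not fat: `4000000 G3 ≤ gxx gyy gzz`, so
`ρ ≤ (1/4000000)/m2`. Hence `ρ² ≤ 1/4000000`, `ρ ≤ 1/2000` (`ρ ≥ 0`).

`adm_open`: `G2 g x y`, `ip g z z`, `G3 g x y z` are polynomials in the entries of `g` and `z`. At `g₀`: for `z ∈ C`
`1000 G3 ≤ (1/2) G2 gzz < G2 gzz`, and `G2(u,v) gxx gyy ≤ G2(x,y) guu gvv < 2 G2(x,y) guu gvv`. The sets `C`, `C ×ˢ C` are
compact, so the strict inequalities hold for all `g` near `g₀` (e.g. `IsCompact.eventually_forall_of_forall_eventually`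
or the tube lemma `generalized_tube_lemma`).
-/

set_option autoImplicit false

namespace LT75

open Matrix Filter Topology

theorem continuous_ip : Continuous fun p : M4 × V4 × V4 => ip p.1 p.2.1 p.2.2 := by
  unfold ip
  exact Continuous.dotProduct (by fun_prop) (Continuous.matrix_mulVec (by fun_prop) (by fun_prop))

private theorem cip {X : Type*} [TopologicalSpace X] {g : X → M4} {x y : X → V4}
    (hg : Continuous g) (hx : Continuous x) (hy : Continuous y) :
    Continuous fun t => ip (g t) (x t) (y t) :=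
  continuous_ip.comp (hg.prodMk (hx.prodMk hy))

theorem continuous_G2 : Continuous fun p : M4 × V4 × V4 => G2 p.1 p.2.1 p.2.2 := by
  unfold G2
  have h1 : Continuous fun p : M4 × V4 × V4 => p.1 := continuous_fst
  have h2 : Continuous fun p : M4 × V4 × V4 => p.2.1 := continuous_fst.comp continuous_snd
  have h3 : Continuous fun p : M4 × V4 × V4 => p.2.2 := continuous_snd.comp continuous_snd
  exact ((cip h1 h2 h2).mul (cip h1 h3 h3)).sub ((cip h1 h2 h3).pow 2)

theorem continuous_G3 : Continuous fun p : M4 × V4 × V4 × V4 => G3 p.1 p.2.1 p.2.2.1 p.2.2.2 := by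
  unfold G3
  have h1 : Continuous fun p : M4 × V4 × V4 × V4 => p.1 := continuous_fst
  have h2 : Continuous fun p : M4 × V4 × V4 × V4 => p.2.1 := continuous_fst.comp continuous_snd
  have h3 : Continuous fun p : M4 × V4 × V4 × V4 => p.2.2.1 :=
    continuous_fst.comp (continuous_snd.comp continuous_snd)
  have h4 : Continuous fun p : M4 × V4 × V4 × V4 => p.2.2.2 :=
    continuous_snd.comp (continuous_snd.comp continuous_snd)
  exact ((((((cip h1 h2 h2).mul (cip h1 h3 h3)).mul (cip h1 h4 h4)).add
    (continuous_const.mul (((cip h1 h2 h3).mul (cip h1 h3 h4)).mul (cip h1 h2 h4)))).sub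
    ((cip h1 h2 h2).mul ((cip h1 h3 h4).pow 2))).sub
    ((cip h1 h3 h3).mul ((cip h1 h2 h4).pow 2))).sub
    ((cip h1 h4 h4).mul ((cip h1 h2 h3).pow 2))

private theorem cG2 {X : Type*} [TopologicalSpace X] {g : X → M4} {x y : X → V4}
    (hg : Continuous g) (hx : Continuous x) (hy : Continuous y) :
    Continuous fun t => G2 (g t) (x t) (y t) :=
  continuous_G2.comp (hg.prodMk (hx.prodMk hy))

private theorem cG3 {X : Type*} [TopologicalSpace X] {g : X → M4} {x y z : X → V4}
    (hg : Continuous g) (hx : Continuous x) (hy : Continuous y) (hz : Continuous z) :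
    Continuous fun t => G3 (g t) (x t) (y t) (z t) :=
  continuous_G3.comp (hg.prodMk (hx.prodMk (hy.prodMk hz)))

private theorem ev_le {X : Type*} [TopologicalSpace X] {f h : X → ℝ} {a : X}
    (hf : Continuous f) (hh : Continuous h) (hlt : f a < h a) : ∀ᶠ p in 𝓝 a, f p ≤ h p := by
  have h1 : ∀ᶠ p in 𝓝 a, f p < h p :=
    hf.continuousAt.eventually_lt hh.continuousAt hlt
  exact h1.mono (fun p hp => hp.le)

theorem exists_admS {η : ℝ} (hη : 0 < η) {C : Set V4} (hC : Body η C) {g : M4} (hg : PD g)
    (hf : ¬ Fat g C) : ∃ x y, AdmS g C x y := by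
  have hpos : ∀ z ∈ C, 0 < ip g z z := fun z hz => hg.2 z (hC.ne_zero hz)
  let F : V4 × V4 → ℝ := fun p => G2 g p.1 p.2 / (ip g p.1 p.1 * ip g p.2 p.2)
  have hF : ContinuousOn F (C ×ˢ C) := by
    apply ContinuousOn.div
    · exact (continuous_G2.comp (continuous_const.prodMk continuous_id)).continuousOn
    · exact ((cip continuous_const continuous_fst continuous_fst).mul
        (cip continuous_const continuous_snd continuous_snd)).continuousOn
    · rintro ⟨x, y⟩ ⟨hx, hy⟩
      exact (mul_pos (hpos x hx) (hpos y hy)).ne'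
  obtain ⟨⟨x, y⟩, ⟨hx, hy⟩, hmax⟩ :=
    (hC.comp.prod hC.comp).exists_isMaxOn (hC.ne.prod hC.ne) hF
  simp only at hx hy
  obtain ⟨u, hu, v, hv, huv⟩ := hC.exists_G2_pos hη hg.psd (n₀ := 0) (fun w hw => by
    refine ⟨0, ?_⟩
    by_contra hne
    have : w ≠ 0 := fun h => hne (by simp [h])
    exact (hg.2 w this).ne' hw)
  have hcmp : ∀ u ∈ C, ∀ v ∈ C,
      G2 g u v * (ip g x x * ip g y y) ≤ G2 g x y * (ip g u u * ip g v v) := by
    intro u hu v hv
    have h := hmax (Set.mk_mem_prod hu hv)
    simp only [Set.mem_ofPred_eq, F] at h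
    exact (div_le_div_iff₀ (mul_pos (hpos u hu) (hpos v hv))
      (mul_pos (hpos x hx) (hpos y hy))).1 h
  have hD : 0 < G2 g x y := by
    have h := hcmp u hu v hv
    have h1 : 0 < G2 g u v * (ip g x x * ip g y y) :=
      mul_pos huv (mul_pos (hpos x hx) (hpos y hy))
    have h2 : 0 < ip g u u * ip g v v := mul_pos (hpos u hu) (hpos v hv)
    by_contra hcon
    rw [not_lt] at hcon
    have := mul_nonpos_of_nonpos_of_nonneg hcon h2.le
    linarith
  refine ⟨x, y, hx, hy, hD, ?_, hcmp⟩
  intro z hz
  have ha := hpos x hx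
  have hb := hpos y hy
  have hc := hpos z hz
  have hT := G3_nonneg hg.psd x y z
  have hfi := G3_fischer hg.1 x y z
  have hd := hcmp x hx z hz
  have hnf : 4000000 * G3 g x y z ≤ ip g x x * ip g y y * ip g z z := by
    by_contra hcon
    rw [not_le] at hcon
    exact hf ⟨x, hx, y, hy, z, hz, hcon⟩
  generalize ip g x x = a at *
  generalize ip g y y = b at *
  generalize ip g z z = c at *
  generalize hDd : G2 g x y = D at *
  generalize G3 g x y z = T at *
  generalize G2 g x z = E at *
  -- E * b ≤ D * c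
  have h1 : E * b ≤ D * c := by
    have : a * (E * b) ≤ a * (D * c) := by nlinarith [hd]
    exact le_of_mul_le_mul_left this ha
  have h2 : T * a ≤ D * E := by nlinarith [hfi, sq_nonneg (a * ip g y z - ip g x y * ip g x z)]
  have h3 : T * a * b ≤ D ^ 2 * c := by
    calc T * a * b ≤ D * E * b := by
          exact mul_le_mul_of_nonneg_right h2 hb.le
      _ = D * (E * b) := by ring
      _ ≤ D * (D * c) := mul_le_mul_of_nonneg_left h1 hD.le
      _ = D ^ 2 * c := by ring
  have h4 : (T * a * b) * (4000000 * T) ≤ (D ^ 2 * c) * (a * b * c) :=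
    mul_le_mul h3 hnf (by positivity) (by positivity)
  have h5 : (2000 * T) ^ 2 ≤ (D * c) ^ 2 := by
    have hab : 0 < a * b := mul_pos ha hb
    have : (a * b) * (2000 * T) ^ 2 ≤ (a * b) * (D * c) ^ 2 := by nlinarith [h4]
    exact le_of_mul_le_mul_left this hab
  exact le_of_sq_le_sq h5 (by positivity)

theorem adm_open {η : ℝ} {C : Set V4} (hC : Body η C) {g₀ : M4} (hg : PD g₀) {x y : V4}
    (h : AdmS g₀ C x y) : ∀ᶠ g in 𝓝 g₀, Adm g C x y := by
  have hpos : ∀ z ∈ C, 0 < ip g₀ z z := fun z hz => hg.2 z (hC.ne_zero hz)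
  have e1 : ∀ᶠ g in 𝓝 g₀, 0 < G2 g x y := by
    have hc : Continuous fun g : M4 => G2 g x y :=
      cG2 continuous_id continuous_const continuous_const
    exact hc.continuousAt.eventually (lt_mem_nhds h.pos)
  have e2 : ∀ᶠ g in 𝓝 g₀, ∀ z ∈ C, 1000 * G3 g x y z ≤ G2 g x y * ip g z z := by
    apply hC.comp.eventually_forall_of_forall_eventually
    intro z hz
    have hc1 : Continuous fun p : M4 × V4 => 1000 * G3 p.1 x y p.2 :=
      continuous_const.mul (cG3 continuous_fst continuous_const continuous_const continuous_snd)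
    have hc2 : Continuous fun p : M4 × V4 => G2 p.1 x y * ip p.1 p.2 p.2 :=
      (cG2 continuous_fst continuous_const continuous_const).mul
        (cip continuous_fst continuous_snd continuous_snd)
    have hlt : 1000 * G3 g₀ x y z < G2 g₀ x y * ip g₀ z z := by
      have := h.thin z hz
      have h2 := mul_pos h.pos (hpos z hz)
      linarith
    exact ev_le hc1 hc2 hlt
  have e3 : ∀ᶠ g in 𝓝 g₀, ∀ q ∈ C ×ˢ C,
      G2 g q.1 q.2 * (ip g x x * ip g y y) ≤ 2 * G2 g x y * (ip g q.1 q.1 * ip g q.2 q.2) := by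
    apply (hC.comp.prod hC.comp).eventually_forall_of_forall_eventually
    rintro ⟨u, v⟩ ⟨hu, hv⟩
    simp only at hu hv
    have cu : Continuous fun p : M4 × V4 × V4 => p.2.1 := continuous_fst.comp continuous_snd
    have cv : Continuous fun p : M4 × V4 × V4 => p.2.2 := continuous_snd.comp continuous_snd
    have hc1 : Continuous fun p : M4 × V4 × V4 => G2 p.1 p.2.1 p.2.2 * (ip p.1 x x * ip p.1 y y) :=
      continuous_G2.mul ((cip continuous_fst continuous_const continuous_const).mul
        (cip continuous_fst continuous_const continuous_const))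
    have hc2 : Continuous fun p : M4 × V4 × V4 =>
        2 * G2 p.1 x y * (ip p.1 p.2.1 p.2.1 * ip p.1 p.2.2 p.2.2) :=
      (continuous_const.mul (cG2 continuous_fst continuous_const continuous_const)).mul
        ((cip continuous_fst cu cu).mul (cip continuous_fst cv cv))
    have hlt : G2 g₀ u v * (ip g₀ x x * ip g₀ y y)
        < 2 * G2 g₀ x y * (ip g₀ u u * ip g₀ v v) := by
      have := h.diam u hu v hv
      have h2 := mul_pos h.pos (mul_pos (hpos u hu) (hpos v hv))
      linarith
    have := ev_le (a := ((g₀, u, v) : M4 × V4 × V4)) hc1 hc2 hlt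
    exact this
  filter_upwards [e1, e2, e3] with g h1 h2 h3
  exact ⟨h.hx, h.hy, h1, h2, fun u hu v hv => h3 (u, v) ⟨hu, hv⟩⟩

end LT75
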