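import Pool.Agent.LT75.Gram2

/-!
# Module LT-TRIPLE (MP_7814b8_co, helper75): a body which contains a kernel vector of `Γ` contains a nearly
# `Γ`-orthogonal triple

`exists_triple`: `z₀ ∈ C`, `Γ z₀ = 0` and `ker Γ` is spanned by `z₀` (or `n₀`). `Γ` is positive definite on
`W = {w | w 3 = 0}` (`z₀ 3 = 1`). There is a `Γ`-orthonormal basis `u_1, u_2, u_3` of `W` (Cholesky/Gram-Schmidt, or
`B` with `Bᵀ Γ₃ B = 1` for the upper left 3×3 block `Γ₃`). `q` = centre of the ball at `z₀`, `ν = q - z₀` (`ν 3 = 0`). Signs: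
`ν·u_j ≥ 0`. `w_j = u_j + (1/20) (u_1 + u_2 + u_3)`. If `ν ≠ 0`, `∑ ν·u_j > 0` (the `u_j` span `W ∋ ν`), so `ν·w_j > 0` and
`|z₀ + s w_j - q|² = |ν|² - 2 s ν·w_j + s² |w_j|² ≤ η²` for small `s > 0`; if `ν = 0` clear. `z_j = z₀ + s w_j`;
`Γ z_j z_k = s² Γ w_j w_k`: `s²·1.1075` and `s²·0.1075`, so `Γ(z_j,z_k)² < (1/64) Γ(z_j,z_j) Γ(z_k,z_k)`.

-/

set_option autoImplicit false
set_option linter.unusedSimpArgs false

namespace LT75

open Matrix Filter Topology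

namespace TR

/-- embedding of `ℝ³` -/
def em (x : Fin 3 → ℝ) : V4 := ![x 0, x 1, x 2, 0]

theorem em_add (x y : Fin 3 → ℝ) : em (x + y) = em x + em y := by
  ext i
  fin_cases i <;> simp [em]

theorem em_smul (c : ℝ) (x : Fin 3 → ℝ) : em (c • x) = c • em x := by
  ext i
  fin_cases i <;> simp [em]

theorem em_three (x : Fin 3 → ℝ) : em x 3 = 0 := by simp [em]

theorem em_of {w : V4} (h : w 3 = 0) : em ![w 0, w 1, w 2] = w := by
  ext i
  fin_cases i <;> simp [em, h]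

theorem em_eq_zero {x : Fin 3 → ℝ} (h : em x = 0) : x = 0 := by
  ext i
  have h0 := congrFun h 0
  have h1 := congrFun h 1
  have h2 := congrFun h 2
  simp [em] at h0 h1 h2
  fin_cases i <;> simp [h0, h1, h2]

/-- An orthogonal basis. -/
theorem exists_ortho {Γ : M4} (hΓ : Γᵀ = Γ)
    (hpos : ∀ w : V4, w 3 = 0 → w ≠ 0 → 0 < ip Γ w w) :
    ∃ u : Fin 3 → V4, (∀ j, u j 3 = 0) ∧ (∀ j, ip Γ (u j) (u j) = 1) ∧
      (∀ j k, j ≠ k → ip Γ (u j) (u k) = 0) ∧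
      ∀ w : V4, w 3 = 0 → ∃ c : Fin 3 → ℝ, w = ∑ j, c j • u j := by
  classical
  let Bf : LinearMap.BilinForm ℝ (Fin 3 → ℝ) := LinearMap.mk₂ ℝ (fun x y => ip Γ (em x) (em y))
    (fun x y z => by rw [em_add, ip_add_left])
    (fun c x y => by rw [em_smul, ip_smul_left, smul_eq_mul])
    (fun x y z => by rw [em_add, ip_add_right])
    (fun c x y => by rw [em_smul, ip_smul_right, smul_eq_mul])
  have hBf : ∀ x y, Bf x y = ip Γ (em x) (em y) := fun x y => rfl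
  have hs : LinearMap.IsSymm Bf := ⟨fun x y => by
    rw [hBf, hBf]
    exact ip_comm hΓ _ _⟩
  obtain ⟨v, hv⟩ := LinearMap.BilinForm.exists_orthogonal_basis hs
  have hf : Module.finrank ℝ (Fin 3 → ℝ) = 3 := by simp
  set b := v.reindex (finCongr hf) with hb
  have hbo : ∀ j k, j ≠ k → ip Γ (em (b j)) (em (b k)) = 0 := by
    intro j k hjk
    rw [← hBf, hb, Module.Basis.reindex_apply, Module.Basis.reindex_apply]
    exact hv (fun h => hjk ((finCongr hf).symm.injective h))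
  have hbp : ∀ j, 0 < ip Γ (em (b j)) (em (b j)) := by
    intro j
    apply hpos _ (em_three _)
    intro h
    exact b.ne_zero j (em_eq_zero h)
  refine ⟨fun j => (1 / √(ip Γ (em (b j)) (em (b j)))) • em (b j), ?_, ?_, ?_, ?_⟩
  · intro j
    simp [em_three]
  · intro j
    have h1 := hbp j
    have h2 := Real.sq_sqrt h1.le
    have h3 := Real.sqrt_pos.2 h1
    rw [ip_smul_left, ip_smul_right]
    field_simp
    rw [h2]
  · intro j k hjk
    rw [ip_smul_left, ip_smul_right, hbo j k hjk]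
    ring
  · intro w hw
    refine ⟨fun j => √(ip Γ (em (b j)) (em (b j))) * b.repr ![w 0, w 1, w 2] j, ?_⟩
    have h1 := b.sum_repr ![w 0, w 1, w 2]
    have h2 : em (∑ i, b.repr ![w 0, w 1, w 2] i • b i) = w := by rw [h1, em_of hw]
    rw [Fin.sum_univ_three] at h2 ⊢
    rw [em_add, em_add, em_smul, em_smul, em_smul] at h2
    have h3 : ∀ j, (√(ip Γ (em (b j)) (em (b j))) * b.repr ![w 0, w 1, w 2] j) •
        (1 / √(ip Γ (em (b j)) (em (b j)))) • em (b j) = b.repr ![w 0, w 1, w 2] j • em (b j) := by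
      intro j
      have h3 := Real.sqrt_pos.2 (hbp j)
      rw [smul_smul]
      congr 1
      field_simp
    rw [h3, h3, h3]
    exact h2.symm

/-- small steps into the body -/
theorem step {η : ℝ} (hη : 0 < η) {C : Set V4} {q z₀ w : V4} (hz3 : z₀ 3 = 1)
    (hz : (z₀ - q) ⬝ᵥ (z₀ - q) ≤ η ^ 2)
    (hC : ∀ y : V4, y 3 = 1 → (y - q) ⬝ᵥ (y - q) ≤ η ^ 2 → y ∈ C) (hw : w 3 = 0)
    (h : q - z₀ = 0 ∨ 0 < (q - z₀) ⬝ᵥ w) :
    ∃ s₀ : ℝ, 0 < s₀ ∧ ∀ s : ℝ, 0 < s → s ≤ s₀ → z₀ + s • w ∈ C := by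
  have hww : 0 ≤ w ⬝ᵥ w := by
    simp only [dotProduct]
    exact Finset.sum_nonneg fun i _ => mul_self_nonneg _
  have expand : ∀ s : ℝ, (z₀ + s • w - q) ⬝ᵥ (z₀ + s • w - q)
      = (z₀ - q) ⬝ᵥ (z₀ - q) - 2 * s * ((q - z₀) ⬝ᵥ w) + s ^ 2 * (w ⬝ᵥ w) := by
    intro s
    simp only [dotProduct, Fin.sum_univ_four, Pi.add_apply, Pi.sub_apply, Pi.smul_apply,
      smul_eq_mul]
    ring
  have h3 : ∀ s : ℝ, (z₀ + s • w) 3 = 1 := by
    intro s
    simp [hz3, hw]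
  rcases h with h | h
  · have hz' : (z₀ - q) ⬝ᵥ (z₀ - q) = 0 := by
      have : z₀ - q = 0 := by rw [← neg_sub, h, neg_zero]
      rw [this]
      simp
    refine ⟨η / (1 + w ⬝ᵥ w), by positivity, fun s hs hs' => hC _ (h3 s) ?_⟩
    rw [expand, hz', h]
    have h4 : s * (1 + w ⬝ᵥ w) ≤ η := by
      rwa [le_div_iff₀ (by positivity)] at hs'
    have h5 : (s * (1 + w ⬝ᵥ w)) ^ 2 ≤ η ^ 2 := by
      have : 0 ≤ s * (1 + w ⬝ᵥ w) := by positivity
      exact pow_le_pow_left₀ this h4 2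
    have h6 : s ^ 2 * (w ⬝ᵥ w) ≤ (s * (1 + w ⬝ᵥ w)) ^ 2 := by
      rw [mul_pow]
      refine mul_le_mul_of_nonneg_left ?_ (by positivity)
      nlinarith
    have h7 : (0 : V4) ⬝ᵥ w = 0 := by simp
    rw [h7]
    linarith
  · refine ⟨2 * ((q - z₀) ⬝ᵥ w) / (1 + w ⬝ᵥ w), by positivity, fun s hs hs' => hC _ (h3 s) ?_⟩
    rw [expand]
    have h4 : s * (1 + w ⬝ᵥ w) ≤ 2 * ((q - z₀) ⬝ᵥ w) := by
      rwa [le_div_iff₀ (by positivity)] at hs'
    have h5 : s * (s * (1 + w ⬝ᵥ w)) ≤ s * (2 * ((q - z₀) ⬝ᵥ w)) :=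
      mul_le_mul_of_nonneg_left h4 hs.le
    nlinarith

end TR

theorem exists_triple {η : ℝ} (hη : 0 < η) {C : Set V4} (hC : Body η C) {Γ : M4} (hΓ : PSD Γ)
    {z₀ : V4} (hz₀ : z₀ ∈ C) (h0 : Γ *ᵥ z₀ = 0) (hker : ∀ v, ip Γ v v = 0 → ∃ s : ℝ, v = s • z₀) :
    ∃ z : Fin 3 → V4, (∀ j, z j ∈ C) ∧ (∀ j, 0 < ip Γ (z j) (z j)) ∧
      ∀ j k, j ≠ k → 64 * ip Γ (z j) (z k) ^ 2 < ip Γ (z j) (z j) * ip Γ (z k) (z k) := by
  classical
  have hz3 := hC.last z₀ hz₀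
  obtain ⟨q, hq3, hqz, hqC⟩ := hC.ball z₀ hz₀
  have hpos : ∀ w : V4, w 3 = 0 → w ≠ 0 → 0 < ip Γ w w := by
    intro w hw hne
    refine lt_of_le_of_ne (hΓ.2 w) (fun h => hne ?_)
    obtain ⟨s, hs⟩ := hker w h.symm
    have h1 := congrFun hs 3
    rw [hw, Pi.smul_apply, hz3, smul_eq_mul, mul_one] at h1
    rw [hs, ← h1, zero_smul]
  obtain ⟨u', hu3', hu1', hu0', husp⟩ := TR.exists_ortho hΓ.1 hpos
  -- signs
  set ν := q - z₀ with hν
  set ε : Fin 3 → ℝ := fun j => if 0 ≤ ν ⬝ᵥ u' j then 1 else -1 with hε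
  have hε2 : ∀ j, ε j * ε j = 1 := by
    intro j
    rw [hε]
    simp only
    split_ifs <;> norm_num
  obtain ⟨u, hu⟩ : ∃ u : Fin 3 → V4, u = fun j => ε j • u' j := ⟨_, rfl⟩
  have hu3 : ∀ j, u j 3 = 0 := by
    intro j
    simp [hu, hu3' j]
  have hu1 : ∀ j, ip Γ (u j) (u j) = 1 := by
    intro j
    simp only [hu]
    rw [ip_smul_left, ip_smul_right, hu1' j, mul_one, hε2]
  have hu0 : ∀ j k, j ≠ k → ip Γ (u j) (u k) = 0 := by
    intro j k hjk
    simp only [hu]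
    rw [ip_smul_left, ip_smul_right, hu0' j k hjk]
    ring
  have hνu : ∀ j, ν ⬝ᵥ u j = |ν ⬝ᵥ u' j| := by
    intro j
    simp only [hu, hε, dotProduct_smul, smul_eq_mul]
    split_ifs with h
    · rw [one_mul, abs_of_nonneg h]
    · rw [abs_of_neg (by linarith)]
      ring
  have hνu0 : ∀ j, 0 ≤ ν ⬝ᵥ u j := fun j => by rw [hνu]; exact abs_nonneg _
  have hν3 : ν 3 = 0 := by simp [hν, hq3, hz3]
  have hsum : ν = 0 ∨ 0 < ∑ j, ν ⬝ᵥ u j := by
    by_cases hν0 : ν = 0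
    · exact Or.inl hν0
    · right
      refine lt_of_le_of_ne (Finset.sum_nonneg fun j _ => hνu0 j) (fun h => hν0 ?_)
      have h1 : ∀ j, ν ⬝ᵥ u j = 0 := fun j =>
        (Finset.sum_eq_zero_iff_of_nonneg fun j _ => hνu0 j).1 h.symm j (Finset.mem_univ j)
      have h2 : ∀ j, ν ⬝ᵥ u' j = 0 := fun j => by
        have := h1 j
        rw [hνu] at this
        exact abs_eq_zero.1 this
      obtain ⟨c, hc⟩ := husp ν hν3
      have h3 : ν ⬝ᵥ ν = 0 := by
        conv_lhs => rw [hc]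
        rw [← hc]
        have h4 : ν ⬝ᵥ (∑ j, c j • u' j) = 0 := by
          rw [dotProduct_sum]
          exact Finset.sum_eq_zero fun j _ => by rw [dotProduct_smul, h2 j, smul_zero]
        rw [← hc] at h4
        exact h4
      exact dotProduct_self_eq_zero.1 h3
  -- the directions
  obtain ⟨U, hU⟩ : ∃ U : V4, U = u 0 + u 1 + u 2 := ⟨_, rfl⟩
  obtain ⟨w, hw⟩ : ∃ w : Fin 3 → V4, w = fun j => u j + (1 / 20 : ℝ) • U := ⟨_, rfl⟩
  have hw3 : ∀ j, w j 3 = 0 := by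
    intro j
    simp [hw, hU, hu3]
  have hνw : ∀ j, ν = 0 ∨ 0 < ν ⬝ᵥ w j := by
    intro j
    rcases hsum with h | h
    · exact Or.inl h
    · right
      have h1 : ν ⬝ᵥ w j = ν ⬝ᵥ u j + (1 / 20) * ∑ j, ν ⬝ᵥ u j := by
        simp only [hw, hU]
        rw [dotProduct_add, dotProduct_smul, dotProduct_add, dotProduct_add, Fin.sum_univ_three,
          smul_eq_mul]
      rw [h1]
      have := hνu0 j
      linarith
  choose s₀ hs₀ hs₀C using fun j => TR.step hη hz3 hqz hqC (hw3 j) (hνw j)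
  obtain ⟨s, hs, hs0, hs1, hs2⟩ : ∃ s : ℝ, 0 < s ∧ s ≤ s₀ 0 ∧ s ≤ s₀ 1 ∧ s ≤ s₀ 2 :=
    ⟨min (s₀ 0) (min (s₀ 1) (s₀ 2)), lt_min (hs₀ 0) (lt_min (hs₀ 1) (hs₀ 2)), min_le_left _ _,
      (min_le_right _ _).trans (min_le_left _ _), (min_le_right _ _).trans (min_le_right _ _)⟩
  have hss : ∀ j, s ≤ s₀ j := by
    intro j
    fin_cases j
    · exact hs0
    · exact hs1
    · exact hs2
  -- Gram matrix of the directions
  have hUu : ∀ j, ip Γ U (u j) = 1 := by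
    intro j
    rw [hU, ip_add_left, ip_add_left]
    fin_cases j
    · have a := hu1 0
      have b := hu0 1 0 (by decide)
      have c := hu0 2 0 (by decide)
      simp only [Fin.zero_eta, Fin.mk_one, Fin.reduceFinMk] at *
      rw [a, b, c]; norm_num
    · have a := hu1 1
      have b := hu0 0 1 (by decide)
      have c := hu0 2 1 (by decide)
      simp only [Fin.zero_eta, Fin.mk_one, Fin.reduceFinMk] at *
      rw [a, b, c]; norm_num
    · have a := hu1 2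
      have b := hu0 0 2 (by decide)
      have c := hu0 1 2 (by decide)
      simp only [Fin.zero_eta, Fin.mk_one, Fin.reduceFinMk] at *
      rw [a, b, c]; norm_num
  have huU : ∀ j, ip Γ (u j) U = 1 := fun j => by rw [ip_comm hΓ.1, hUu j]
  have hUU : ip Γ U U = 3 := by
    have h1 : ip Γ (u 0 + u 1 + u 2) U = 3 := by
      rw [ip_add_left, ip_add_left, huU, huU, huU]
      norm_num
    rwa [← hU] at h1
  have hww : ∀ j k, ip Γ (w j) (w k) = ip Γ (u j) (u k) + 1 / 10 + 3 / 400 := by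
    intro j k
    simp only [hw]
    rw [ip_add_left, ip_add_right, ip_add_right, ip_smul_left, ip_smul_left, ip_smul_right,
      ip_smul_right, huU, hUu, hUU]
    ring
  have hz0l : ∀ v : V4, ip Γ z₀ v = 0 := by
    intro v
    rw [ip_comm hΓ.1, ip, h0]
    simp
  have hz0r : ∀ v : V4, ip Γ v z₀ = 0 := fun v => by rw [ip, h0]; simp
  have hzz : ∀ j k, ip Γ (z₀ + s • w j) (z₀ + s • w k) = s ^ 2 * ip Γ (w j) (w k) := by
    intro j k
    rw [ip_add_left, ip_add_right, hz0l, hz0l, ip_add_right, hz0r, ip_smul_left, ip_smul_right]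
    ring
  refine ⟨fun j => z₀ + s • w j, fun j => hs₀C j s hs (hss j), fun j => ?_, fun j k hjk => ?_⟩
  · simp only
    rw [hzz, hww, hu1]
    positivity
  · simp only
    rw [hzz, hzz, hzz, hww, hww, hww, hu1, hu1, hu0 j k hjk]
    have : 0 < s ^ 4 := by positivity
    nlinarith

end LT75
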