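import Pool.Agent.LT75.Bessel
import Pool.Agent.LT75.Triple
import Pool.Agent.LT75.Select

/-!
# Module LT-RANK3A (MP_7814b8_co, helper75): zooming into a point of the body `C` is impossible

`rank3A`: for large `m` the strict inequality holds for `e m • g m`, hence for `g m` (scaling). Then `bessel` contradicts
`Adm.thin`.
-/

set_option autoImplicit false

namespace LT75

open Matrix Filter Topology

private theorem rank3A_tendsto {Γ : M4} {h : ℕ → M4} (hlim : Tendsto h atTop (𝓝 Γ)) (u v : V4) :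
    Tendsto (fun m => ip (h m) u v) atTop (𝓝 (ip Γ u v)) := by
  have hc : Continuous fun g : M4 => ip g u v :=
    continuous_ip.comp (f := fun g : M4 => (g, u, v)) (continuous_id.prodMk continuous_const)
  exact (hc.tendsto Γ).comp hlim

theorem rank3A {η : ℝ} (hη : 0 < η) {C : Set V4} (hC : Body η C) {Γ : M4} (hΓ : PSD Γ)
    {z₀ : V4} (hz₀ : z₀ ∈ C) (h0 : Γ *ᵥ z₀ = 0) (hker : ∀ v, ip Γ v v = 0 → ∃ s : ℝ, v = s • z₀)
    (e : ℕ → ℝ) (g : ℕ → M4) (x y : ℕ → V4) (he : ∀ m, 0 < e m) (hg : ∀ m, PD (g m))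
    (hlim : Tendsto (fun m => e m • g m) atTop (𝓝 Γ)) (hadm : ∀ m, Adm (g m) C (x m) (y m)) :
    False := by
  obtain ⟨z, hzC, hzpos, hzcos⟩ := exists_triple hη hC hΓ hz₀ h0 hker
  have h1 : ∀ᶠ m in atTop, ∀ j, 0 < ip (e m • g m) (z j) (z j) := by
    refine Filter.eventually_all.mpr fun j => ?_
    exact (rank3A_tendsto hlim (z j) (z j)).eventually (lt_mem_nhds (hzpos j))
  have h2 : ∀ᶠ m in atTop, ∀ j k, j ≠ k → 64 * ip (e m • g m) (z j) (z k) ^ 2
      < ip (e m • g m) (z j) (z j) * ip (e m • g m) (z k) (z k) := by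
    refine Filter.eventually_all.mpr fun j => Filter.eventually_all.mpr fun k => ?_
    by_cases hjk : j = k
    · exact Eventually.of_forall fun m h => absurd hjk h
    · have hl := ((rank3A_tendsto hlim (z j) (z k)).pow 2).const_mul 64
      have hr := (rank3A_tendsto hlim (z j) (z j)).mul (rank3A_tendsto hlim (z k) (z k))
      exact (hl.eventually_lt hr (hzcos j k hjk)).mono fun m hm _ => hm
  obtain ⟨m, hm1, hm2⟩ := (h1.and h2).exists
  have hem := he m
  refine bessel (hg m) (hadm m).pos z (fun j => ?_) (fun j k hjk => ?_)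
    fun j => (hadm m).thin (z j) (hzC j)
  · have h := hm1 j
    rw [ip_smul_mat] at h
    exact pos_of_mul_pos_right (by linarith) hem.le
  · have h := hm2 j k hjk
    rw [ip_smul_mat, ip_smul_mat, ip_smul_mat] at h
    have h3 : e m ^ 2 * (64 * ip (g m) (z j) (z k) ^ 2)
        < e m ^ 2 * (ip (g m) (z j) (z j) * ip (g m) (z k) (z k)) := by
      nlinarith
    exact (lt_of_mul_lt_mul_left h3 (by positivity)).le

end LT75
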