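import Pool.Agent.LT75.Select

/-!
# Module LT-RANK3B (MP_7814b8_co, helper75): zooming into a point outside of `C` is impossible

`Γ z z > 0` for all `z ∈ C` and the kernel of `Γ` is spanned by `n₀`. By `Body.exists_G2_pos` there are `u, v ∈ C` with
`G2 Γ u v > 0`. Pass to a subsequence: `x m → x`, `y m → y` in the compact `C`. `Adm.diam` for `g m`, multiplied by
`(e m)^4`, is the same inequality for `Γ_m = e m • g m` (`G2_smul`, `ip_smul_mat`); limit:
`G2 Γ u v * (Γxx Γyy) ≤ 2 G2 Γ x y (Γuu Γvv)`, the left side is positive, so `G2 Γ x y > 0`. `PM (g m) (x m) (y m) = e m • PM Γ_m (x m) (y m)`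
(`PM_smul`), and `trace (PM Γ_m (x m) (y m)) → trace (PM Γ x y)` (continuity where `G2 ≠ 0`), `e m → 0`: the trace tends to `0`,
contradiction with `≥ 1/4`.
-/

set_option autoImplicit false

namespace LT75

open Matrix Filter Topology

private theorem tendsto_ip' {G : ℕ → M4} {Γ : M4} {x y : ℕ → V4} {a b : V4}
    (hG : Tendsto G atTop (𝓝 Γ)) (hx : Tendsto x atTop (𝓝 a)) (hy : Tendsto y atTop (𝓝 b)) :
    Tendsto (fun m => ip (G m) (x m) (y m)) atTop (𝓝 (ip Γ a b)) := by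
  have h1 : Tendsto (fun m => (G m, x m, y m)) atTop (𝓝 (Γ, a, b)) :=
    hG.prodMk_nhds (hx.prodMk_nhds hy)
  exact Tendsto.comp (g := fun p : M4 × V4 × V4 => ip p.1 p.2.1 p.2.2)
    (f := fun m => (G m, x m, y m)) (continuous_ip.tendsto (Γ, a, b)) h1

private theorem tendsto_G2' {G : ℕ → M4} {Γ : M4} {x y : ℕ → V4} {a b : V4}
    (hG : Tendsto G atTop (𝓝 Γ)) (hx : Tendsto x atTop (𝓝 a)) (hy : Tendsto y atTop (𝓝 b)) :
    Tendsto (fun m => G2 (G m) (x m) (y m)) atTop (𝓝 (G2 Γ a b)) := by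
  have h1 : Tendsto (fun m => (G m, x m, y m)) atTop (𝓝 (Γ, a, b)) :=
    hG.prodMk_nhds (hx.prodMk_nhds hy)
  exact Tendsto.comp (g := fun p : M4 × V4 × V4 => G2 p.1 p.2.1 p.2.2)
    (f := fun m => (G m, x m, y m)) (continuous_G2.tendsto (Γ, a, b)) h1

private theorem trace_PM_eq (g : M4) (x y : V4) : (PM g x y).trace
    = (1 / (2 * G2 g x y)) * (ip g y y * (x ⬝ᵥ x) - ip g x y * (x ⬝ᵥ y + y ⬝ᵥ x)
        + ip g x x * (y ⬝ᵥ y)) := by
  simp only [PM, trace_smul, trace_add, trace_sub, trace_vecMulVec, smul_eq_mul]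

private theorem tendsto_trace_PM {G : ℕ → M4} {Γ : M4} {x y : ℕ → V4} {a b : V4}
    (hG : Tendsto G atTop (𝓝 Γ)) (hx : Tendsto x atTop (𝓝 a)) (hy : Tendsto y atTop (𝓝 b))
    (h : G2 Γ a b ≠ 0) :
    Tendsto (fun m => (PM (G m) (x m) (y m)).trace) atTop (𝓝 (PM Γ a b).trace) := by
  have hdot : Continuous fun p : V4 × V4 => p.1 ⬝ᵥ p.2 := by
    simp only [dotProduct]
    fun_prop
  have hd : ∀ {s t : ℕ → V4} {c d : V4}, Tendsto s atTop (𝓝 c) → Tendsto t atTop (𝓝 d) →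
      Tendsto (fun m => s m ⬝ᵥ t m) atTop (𝓝 (c ⬝ᵥ d)) := by
    intro s t c d hs ht
    exact (hdot.tendsto (c, d)).comp (hs.prodMk_nhds ht)
  simp only [trace_PM_eq]
  refine Tendsto.mul ?_ ?_
  · refine Tendsto.div tendsto_const_nhds ((tendsto_G2' hG hx hy).const_mul 2) ?_
    exact mul_ne_zero two_ne_zero h
  · exact (((tendsto_ip' hG hy hy).mul (hd hx hx)).sub
      ((tendsto_ip' hG hx hy).mul ((hd hx hy).add (hd hy hx)))).add
      ((tendsto_ip' hG hx hx).mul (hd hy hy))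

theorem rank3B {η : ℝ} (hη : 0 < η) {C : Set V4} (hC : Body η C) {Γ : M4} (hΓ : PSD Γ)
    {n₀ : V4} (hker : ∀ v, ip Γ v v = 0 → ∃ s : ℝ, v = s • n₀) (hpos : ∀ z ∈ C, 0 < ip Γ z z)
    (e : ℕ → ℝ) (g : ℕ → M4) (x y : ℕ → V4) (he : ∀ m, 0 < e m) (he0 : Tendsto e atTop (𝓝 0))
    (hg : ∀ m, PD (g m)) (hlim : Tendsto (fun m => e m • g m) atTop (𝓝 Γ))
    (hadm : ∀ m, Adm (g m) C (x m) (y m)) (htr : ∀ m, 1 / 4 ≤ (PM (g m) (x m) (y m)).trace) :
    False := by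
  obtain ⟨u, hu, v, hv, huv⟩ := Body.exists_G2_pos hη hC hΓ hker
  obtain ⟨p, hp, φ, hφ, hlimp⟩ := (hC.comp.prod hC.comp).tendsto_subseq
    (x := fun m => (x m, y m)) (fun m => ⟨(hadm m).hx, (hadm m).hy⟩)
  obtain ⟨a, b⟩ := p
  have ha : a ∈ C := hp.1
  have hb : b ∈ C := hp.2
  have hxa : Tendsto (fun m => x (φ m)) atTop (𝓝 a) := by
    have := (continuous_fst.tendsto (a, b)).comp hlimp
    exact this
  have hyb : Tendsto (fun m => y (φ m)) atTop (𝓝 b) := by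
    have := (continuous_snd.tendsto (a, b)).comp hlimp
    exact this
  have hG : Tendsto (fun m => e (φ m) • g (φ m)) atTop (𝓝 Γ) := hlim.comp hφ.tendsto_atTop
  have he' : Tendsto (fun m => e (φ m)) atTop (𝓝 0) := he0.comp hφ.tendsto_atTop
  have hu' : Tendsto (fun _ : ℕ => u) atTop (𝓝 u) := tendsto_const_nhds
  have hv' : Tendsto (fun _ : ℕ => v) atTop (𝓝 v) := tendsto_const_nhds
  -- the limit of the diameter inequality
  have hdiam : G2 Γ u v * (ip Γ a a * ip Γ b b) ≤ 2 * G2 Γ a b * (ip Γ u u * ip Γ v v) := by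
    refine le_of_tendsto_of_tendsto' ((tendsto_G2' hG hu' hv').mul
      ((tendsto_ip' hG hxa hxa).mul (tendsto_ip' hG hyb hyb)))
      (((tendsto_G2' hG hxa hyb).const_mul 2).mul
        ((tendsto_ip' hG hu' hu').mul (tendsto_ip' hG hv' hv'))) ?_
    intro m
    have h1 := (hadm (φ m)).diam u hu v hv
    have h2 := mul_le_mul_of_nonneg_left h1 (pow_nonneg (he (φ m)).le 4)
    simp only [G2_smul, ip_smul_mat]
    calc _ = e (φ m) ^ 4 * (G2 (g (φ m)) u v * (ip (g (φ m)) (x (φ m)) (x (φ m))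
          * ip (g (φ m)) (y (φ m)) (y (φ m)))) := by ring
      _ ≤ _ := h2
      _ = _ := by ring
  have hab : 0 < G2 Γ a b := by
    have h1 : 0 < G2 Γ u v * (ip Γ a a * ip Γ b b) :=
      mul_pos huv (mul_pos (hpos a ha) (hpos b hb))
    have h2 : 0 < ip Γ u u * ip Γ v v := mul_pos (hpos u hu) (hpos v hv)
    have h3 : 0 < 2 * G2 Γ a b * (ip Γ u u * ip Γ v v) := lt_of_lt_of_le h1 hdiam
    have h4 := pos_of_mul_pos_left h3 h2.le
    linarith
  have htr2 := tendsto_trace_PM hG hxa hyb hab.ne'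
  have hz := he'.mul htr2
  rw [zero_mul] at hz
  have hfin : (1 : ℝ) / 4 ≤ 0 := by
    refine ge_of_tendsto' hz ?_
    intro m
    have h1 := htr (φ m)
    have h2 : (PM (g (φ m)) (x (φ m)) (y (φ m))).trace
        = e (φ m) * (PM (e (φ m) • g (φ m)) (x (φ m)) (y (φ m))).trace := by
      rw [PM_smul (he (φ m)).ne', trace_smul, smul_eq_mul, ← mul_assoc,
        mul_inv_cancel₀ (he (φ m)).ne', one_mul]
    rw [← h2]
    exact h1
  norm_num at hfin

end LT75
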