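import Pool.Agent.LT75.Limit
import Pool.Agent.LT75.Rank12
import Pool.Agent.LT75.Rank3A
import Pool.Agent.LT75.Rank3B

/-!
# Module LT-CORE (MP_7814b8_co, helper75): one frame in which all bodies are fat

By contradiction: `stageH` gives the hypothesis of `limit_data`; `ker_dim_one` gives `n₀`. For the body `C i` of the limit
data: if some `z₀ ∈ C i` has `ip Γ z₀ z₀ = 0`, then `z₀ = s • n₀`, `s ≠ 0`, so `z₀` spans the kernel, `rank3A`; otherwise `rank3B`.
-/

set_option autoImplicit false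

namespace LT75

theorem core {ι : Type} [Fintype ι] {η : ℝ} (hη : 0 < η) (C : ι → Set V4)
    (hC : ∀ i, Body η (C i)) (hmeet : ∀ i j, (C i ∩ C j).Nonempty) :
    ∃ g, PD g ∧ ∀ i, Fat g (C i) := by
  by_contra hcon
  have hnf : ∀ g, PD g → ∃ i, ¬ Fat g (C i) := by
    intro g hg
    by_contra h
    push Not at h
    exact hcon ⟨g, hg, h⟩
  obtain ⟨S, Γ, φ, H, hH, i, e, g, x, y, he, he0, hg, hlim, hadm, htr⟩ :=
    limit_data C fun ε hε => stageH hη C hC hmeet hnf ε hε
  obtain ⟨n₀, hn, hn0, hker⟩ := ker_dim_one hη C hC hH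
  by_cases hz : ∃ z ∈ C i, ip Γ z z = 0
  · obtain ⟨z, hzC, hz0⟩ := hz
    obtain ⟨s, hs⟩ := hker z hz0
    have hs0 : s ≠ 0 := by
      intro h
      apply (hC i).ne_zero hzC
      rw [hs, h, zero_smul]
    refine rank3A hη (hC i) hH.hΓ hzC (hH.hΓ.ker hz0) ?_ e g x y he hg hlim hadm
    intro v hv
    obtain ⟨t, ht⟩ := hker v hv
    refine ⟨t / s, ?_⟩
    rw [hs, smul_smul, div_mul_cancel₀ _ hs0]
    exact ht
  · push Not at hz
    refine rank3B hη (hC i) hH.hΓ hker ?_ e g x y he he0 hg hlim hadm htr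
    intro z hzC
    exact lt_of_le_of_ne (hH.hΓ.2 z) (Ne.symm (hz z hzC))

end LT75
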