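import Pool.Agent.LT75.Defs

/-!
# Module LT-GRAM (MP_7814b8_co, helper75): bilinearity of `ip`, `PSD`, `PD` and Mathlib's predicates

`PSD`, `PD` are our own versions of `Matrix.PosSemidef`, `Matrix.PosDef` over `ℝ`
(`Matrix.posSemidef_iff_dotProduct_mulVec`). -/

set_option autoImplicit false

namespace LT75

open Matrix

theorem ip_comm {g : M4} (hg : gᵀ = g) (x y : V4) : ip g x y = ip g y x := by
  unfold ip
  rw [dotProduct_mulVec, dotProduct_comm, ← mulVec_transpose, hg]

theorem ip_add_left (g : M4) (x y z : V4) : ip g (x + y) z = ip g x z + ip g y z := by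
  unfold ip
  rw [add_dotProduct]

theorem ip_add_right (g : M4) (x y z : V4) : ip g x (y + z) = ip g x y + ip g x z := by
  unfold ip
  rw [mulVec_add, dotProduct_add]

theorem ip_smul_left (g : M4) (s : ℝ) (x y : V4) : ip g (s • x) y = s * ip g x y := by
  unfold ip
  rw [smul_dotProduct, smul_eq_mul]

theorem ip_smul_right (g : M4) (s : ℝ) (x y : V4) : ip g x (s • y) = s * ip g x y := by
  unfold ip
  rw [mulVec_smul, dotProduct_smul, smul_eq_mul]

theorem ip_sub_left (g : M4) (x y z : V4) : ip g (x - y) z = ip g x z - ip g y z := by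
  unfold ip
  rw [sub_dotProduct]

theorem ip_sub_right (g : M4) (x y z : V4) : ip g x (y - z) = ip g x y - ip g x z := by
  unfold ip
  rw [mulVec_sub, dotProduct_sub]

theorem ip_add_mat (g h : M4) (x y : V4) : ip (g + h) x y = ip g x y + ip h x y := by
  unfold ip
  rw [add_mulVec, dotProduct_add]

theorem ip_smul_mat (s : ℝ) (g : M4) (x y : V4) : ip (s • g) x y = s * ip g x y := by
  unfold ip
  rw [smul_mulVec, dotProduct_smul, smul_eq_mul]

theorem ip_sub_mat (g h : M4) (x y : V4) : ip (g - h) x y = ip g x y - ip h x y := by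
  unfold ip
  rw [sub_mulVec, dotProduct_sub]

theorem ip_sum_mat {ι : Type} (s : Finset ι) (g : ι → M4) (x y : V4) :
    ip (∑ i ∈ s, g i) x y = ∑ i ∈ s, ip (g i) x y := by
  classical
  induction s using Finset.induction_on with
  | empty => simp [ip]
  | insert a s ha ih => rw [Finset.sum_insert ha, Finset.sum_insert ha, ip_add_mat, ih]

theorem PD.psd {g : M4} (hg : PD g) : PSD g := by
  refine ⟨hg.1, fun x => ?_⟩
  by_cases hx : x = 0
  · subst hx
    simp [ip]
  · exact (hg.2 x hx).le

private theorem gram_star (x : V4) : star x = x := by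
  funext i
  simp

private theorem gram_conjTranspose (g : M4) : gᴴ = gᵀ := by
  ext i j
  simp [conjTranspose_apply]

theorem PSD.posSemidef {g : M4} (hg : PSD g) : g.PosSemidef := by
  rw [Matrix.posSemidef_iff_dotProduct_mulVec]
  refine ⟨?_, fun x => ?_⟩
  · unfold Matrix.IsHermitian
    rw [gram_conjTranspose]
    exact hg.1
  · rw [gram_star]
    exact hg.2 x

theorem psd_of_posSemidef {g : M4} (hg : g.PosSemidef) : PSD g := by
  rw [Matrix.posSemidef_iff_dotProduct_mulVec] at hg
  refine ⟨?_, fun x => ?_⟩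
  · have h := hg.1
    unfold Matrix.IsHermitian at h
    rw [gram_conjTranspose] at h
    exact h
  · have h := hg.2 x
    rw [gram_star] at h
    exact h

theorem PD.posDef {g : M4} (hg : PD g) : g.PosDef := by
  rw [Matrix.posDef_iff_dotProduct_mulVec]
  refine ⟨?_, fun x hx => ?_⟩
  · unfold Matrix.IsHermitian
    rw [gram_conjTranspose]
    exact hg.1
  · rw [gram_star]
    exact hg.2 x hx

theorem pd_of_posDef {g : M4} (hg : g.PosDef) : PD g := by
  rw [Matrix.posDef_iff_dotProduct_mulVec] at hg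
  refine ⟨?_, fun x hx => ?_⟩
  · have h := hg.1
    unfold Matrix.IsHermitian at h
    rw [gram_conjTranspose] at h
    exact h
  · have h := hg.2 hx
    rw [gram_star] at h
    exact h

theorem PD.inv {g : M4} (hg : PD g) : PD g⁻¹ :=
  pd_of_posDef hg.posDef.inv

theorem PSD.add {g h : M4} (hg : PSD g) (hh : PSD h) : PSD (g + h) := by
  refine ⟨by rw [transpose_add, hg.1, hh.1], fun x => ?_⟩
  rw [ip_add_mat]
  exact add_nonneg (hg.2 x) (hh.2 x)

theorem PSD.smul {g : M4} (hg : PSD g) {s : ℝ} (hs : 0 ≤ s) : PSD (s • g) := by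
  refine ⟨by rw [transpose_smul, hg.1], fun x => ?_⟩
  rw [ip_smul_mat]
  exact mul_nonneg hs (hg.2 x)

theorem PD.smul {g : M4} (hg : PD g) {s : ℝ} (hs : 0 < s) : PD (s • g) := by
  refine ⟨by rw [transpose_smul, hg.1], fun x hx => ?_⟩
  rw [ip_smul_mat]
  exact mul_pos hs (hg.2 x hx)

theorem PSD.sum {ι : Type} (s : Finset ι) (g : ι → M4) (hg : ∀ i ∈ s, PSD (g i)) :
    PSD (∑ i ∈ s, g i) := by
  refine ⟨?_, fun x => ?_⟩
  · rw [transpose_sum]
    exact Finset.sum_congr rfl fun i hi => (hg i hi).1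
  · rw [ip_sum_mat]
    exact Finset.sum_nonneg fun i hi => (hg i hi).2 x

theorem PSD.add_pd {S : M4} (hS : PSD S) {ε : ℝ} (hε : 0 < ε) : PD (S + ε • (1 : M4)) := by
  refine ⟨by rw [transpose_add, transpose_smul, transpose_one, hS.1], fun x hx => ?_⟩
  rw [ip_add_mat, ip_smul_mat]
  have h1 : 0 < ip (1 : M4) x x := by
    unfold ip
    rw [one_mulVec]
    have h2 : 0 ≤ x ⬝ᵥ x := by
      unfold dotProduct
      exact Finset.sum_nonneg fun i _ => mul_self_nonneg _
    exact lt_of_le_of_ne h2 fun h => hx (dotProduct_self_eq_zero.mp h.symm)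
  exact add_pos_of_nonneg_of_pos (hS.2 x) (mul_pos hε h1)


end LT75
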