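import Pool.Agent.LT75.Gram

/-!
# Module LT-GRAM2 (MP_7814b8_co, helper75): Gram determinants, the matrix `PM`, bodies

Hints. `G2_nonneg`: discriminant of `t ↦ ip g (x + t y) (x + t y)`, or `ip g u u ≥ 0` for
`u = ip g y y • x - ip g x y • y` (gives `G2 * ip g y y ≥ 0`) and the case `ip g y y = 0` (then `ip g x y = 0`).
`G3_fischer` is `ring` after `ip_comm`. `G3_nonneg`: if `G2 g x y > 0`, then `ip g w w = G2 * G3` for
`w = G2 • z - (gyy gxz - gxy gyz) • x - (gxx gyz - gxy gxz) • y`; if `G2 g x y = 0` and `gxx > 0` use `G3_fischer` (then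
`G3 gxx = -(..)²`, and the vector `gxx y - gxy x` has norm zero, so it is in the kernel (`PSD.ker`) and `(..) = 0`); if
`gxx = 0` then `g x = 0` and `G3 = 0`. `PM_quad`, `PM_trace`: expand (`ip (g * M * g) z z = ip M (g z) (g z)`).
-/

set_option autoImplicit false

namespace LT75

open Matrix

/-- Cauchy-Schwarz -/
theorem G2_nonneg {g : M4} (hg : PSD g) (x y : V4) : 0 ≤ G2 g x y := by
  have h : ∀ t : ℝ, 0 ≤ ip g y y * (t * t) + (2 * ip g x y) * t + ip g x x := by
    intro t
    have h1 := hg.2 (x + t • y)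
    rw [ip_add_left, ip_add_right, ip_add_right, ip_smul_left, ip_smul_left, ip_smul_right,
      ip_smul_right, ip_comm hg.1 y x] at h1
    linarith
  have h2 := discrim_le_zero h
  unfold discrim at h2
  unfold G2
  nlinarith

/-- a vector of norm zero is in the kernel -/
theorem PSD.ker {g : M4} (hg : PSD g) {x : V4} (hx : ip g x x = 0) : g *ᵥ x = 0 := by
  have h : ∀ y : V4, ip g y x = 0 := by
    intro y
    have h1 := G2_nonneg hg y x
    unfold G2 at h1
    rw [hx] at h1
    have h2 : ip g y x ^ 2 ≤ 0 := by linarith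
    exact pow_eq_zero_iff (two_ne_zero) |>.mp (le_antisymm h2 (sq_nonneg _))
  have h3 := h (g *ᵥ x)
  unfold ip at h3
  exact dotProduct_self_eq_zero.mp h3

private theorem gram2_ip_ker {g : M4} (hg : PSD g) {x : V4} (hx : ip g x x = 0) (y : V4) :
    ip g y x = 0 := by
  unfold ip
  rw [hg.ker hx, dotProduct_zero]

private theorem gram2_comb {g : M4} (hg : gᵀ = g) (x y : V4) (a b : ℝ) :
    ip g (a • x - b • y) (a • x - b • y)
      = a ^ 2 * ip g x x - 2 * a * b * ip g x y + b ^ 2 * ip g y y := by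
  rw [ip_sub_left, ip_sub_right, ip_sub_right, ip_smul_left, ip_smul_left, ip_smul_left,
    ip_smul_left, ip_smul_right, ip_smul_right, ip_smul_right, ip_smul_right, ip_comm hg y x]
  ring

theorem G3_fischer {g : M4} (hg : gᵀ = g) (x y z : V4) :
    G3 g x y z * ip g x x = G2 g x y * G2 g x z
      - (ip g x x * ip g y z - ip g x y * ip g x z) ^ 2 := by
  unfold G3 G2
  ring

theorem G3_nonneg {g : M4} (hg : PSD g) (x y z : V4) : 0 ≤ G3 g x y z := by
  rcases (G2_nonneg hg x y).lt_or_eq with hpos | hz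
  · have h1 := hg.2 (G2 g x y • z - ((ip g y y * ip g x z - ip g x y * ip g y z) • x
      + (ip g x x * ip g y z - ip g x y * ip g x z) • y))
    have h2 : ip g (G2 g x y • z - ((ip g y y * ip g x z - ip g x y * ip g y z) • x
      + (ip g x x * ip g y z - ip g x y * ip g x z) • y))
      (G2 g x y • z - ((ip g y y * ip g x z - ip g x y * ip g y z) • x
      + (ip g x x * ip g y z - ip g x y * ip g x z) • y)) = G2 g x y * G3 g x y z := by
      simp only [ip_sub_left, ip_sub_right, ip_add_left, ip_add_right, ip_smul_left,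
        ip_smul_right, ip_comm hg.1 y x, ip_comm hg.1 z x, ip_comm hg.1 z y]
      unfold G3 G2
      ring
    rw [h2] at h1
    exact nonneg_of_mul_nonneg_right h1 hpos
  · rcases (hg.2 x).lt_or_eq with hx | hx
    · have h1 := G3_fischer hg.1 x y z
      have hu : ip g (ip g x x • y - ip g x y • x) (ip g x x • y - ip g x y • x) = 0 := by
        rw [gram2_comb hg.1, ip_comm hg.1 y x]
        have h0 : ip g x x * G2 g x y = 0 := by rw [← hz, mul_zero]
        unfold G2 at h0
        linarith
      have hk := gram2_ip_ker hg hu z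
      rw [ip_sub_right, ip_smul_right, ip_smul_right, ip_comm hg.1 z x, ip_comm hg.1 z y] at hk
      rw [hk, ← hz] at h1
      have h3 : G3 g x y z * ip g x x = 0 := by rw [h1]; ring
      rcases mul_eq_zero.mp h3 with h4 | h4
      · rw [h4]
      · rw [h4] at hx
        exact absurd hx (lt_irrefl _)
    · have hx' : ip g x x = 0 := hx.symm
      have hy0 : ip g x y = 0 := by
        rw [ip_comm hg.1 x y]
        exact gram2_ip_ker hg hx' y
      have hz0 : ip g x z = 0 := by
        rw [ip_comm hg.1 x z]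
        exact gram2_ip_ker hg hx' z
      unfold G3
      rw [hx', hy0, hz0]
      apply le_of_eq
      ring

theorem G2_pos_of_indep {g : M4} (hg : PD g) {x y : V4}
    (h : ∀ s t : ℝ, s • x + t • y = 0 → s = 0 ∧ t = 0) : 0 < G2 g x y := by
  have hy : y ≠ 0 := by
    intro hy
    have := (h 0 1 (by rw [hy]; simp)).2
    exact one_ne_zero this
  have hyy := hg.2 y hy
  have hu : ip g y y • x - ip g x y • y ≠ 0 := by
    intro hu
    have h1 := (h (ip g y y) (-ip g x y) (by rw [neg_smul, ← sub_eq_add_neg]; exact hu)).1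
    rw [h1] at hyy
    exact lt_irrefl _ hyy
  have h1 := hg.2 _ hu
  rw [gram2_comb hg.1] at h1
  have h2 : ip g y y ^ 2 * ip g x x - 2 * ip g y y * ip g x y * ip g x y
      + ip g x y ^ 2 * ip g y y = ip g y y * G2 g x y := by
    unfold G2
    ring
  rw [h2] at h1
  exact (pos_iff_pos_of_mul_pos h1).mp hyy

theorem indep_of_G2_pos {g : M4} (hg : PSD g) {x y : V4} (h : 0 < G2 g x y) :
    ∀ s t : ℝ, s • x + t • y = 0 → s = 0 ∧ t = 0 := by
  intro s t hst
  have h1 : s * ip g x x + t * ip g x y = 0 := by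
    have : ip g x (s • x + t • y) = 0 := by
      rw [hst]
      unfold ip
      rw [mulVec_zero, dotProduct_zero]
    rw [ip_add_right, ip_smul_right, ip_smul_right] at this
    exact this
  have h2 : s * ip g x y + t * ip g y y = 0 := by
    have : ip g y (s • x + t • y) = 0 := by
      rw [hst]
      unfold ip
      rw [mulVec_zero, dotProduct_zero]
    rw [ip_add_right, ip_smul_right, ip_smul_right, ip_comm hg.1 y x] at this
    exact this
  have h3 : s * G2 g x y = 0 := by
    have : s * G2 g x y = ip g y y * (s * ip g x x + t * ip g x y)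
        - ip g x y * (s * ip g x y + t * ip g y y) := by
      unfold G2
      ring
    rw [this, h1, h2]
    ring
  have h4 : t * G2 g x y = 0 := by
    have : t * G2 g x y = ip g x x * (s * ip g x y + t * ip g y y)
        - ip g x y * (s * ip g x x + t * ip g x y) := by
      unfold G2
      ring
    rw [this, h1, h2]
    ring
  exact ⟨(mul_eq_zero.mp h3).resolve_right h.ne', (mul_eq_zero.mp h4).resolve_right h.ne'⟩

theorem G2_pos_transfer {g g' : M4} (hg : PSD g) (hg' : PD g') {x y : V4} (h : 0 < G2 g x y) :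
    0 < G2 g' x y :=
  G2_pos_of_indep hg' (indep_of_G2_pos hg h)

theorem PM_symm (g : M4) (x y : V4) : (PM g x y)ᵀ = PM g x y := by
  ext i j
  simp only [PM, transpose_apply, Matrix.smul_apply, Matrix.add_apply, Matrix.sub_apply, vecMulVec_apply, smul_eq_mul]
  ring

private theorem gram2_ip_vecMulVec (a b u v : V4) :
    ip (vecMulVec a b) u v = (u ⬝ᵥ a) * (b ⬝ᵥ v) := by
  simp only [ip, dotProduct, mulVec, vecMulVec_apply, Fin.sum_univ_four]
  ring

private theorem gram2_PM_ip (g : M4) (x y z : V4) :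
    ip (PM g x y) z z = (1 / (2 * G2 g x y)) * (ip g y y * (x ⬝ᵥ z) ^ 2
      - 2 * ip g x y * (x ⬝ᵥ z) * (y ⬝ᵥ z) + ip g x x * (y ⬝ᵥ z) ^ 2) := by
  unfold PM
  rw [ip_smul_mat, ip_add_mat, ip_sub_mat, ip_smul_mat, ip_smul_mat, ip_smul_mat, ip_add_mat,
    gram2_ip_vecMulVec, gram2_ip_vecMulVec, gram2_ip_vecMulVec, gram2_ip_vecMulVec,
    dotProduct_comm z x, dotProduct_comm z y]
  ring

theorem PM_psd {g : M4} (hg : PSD g) {x y : V4} (h : 0 < G2 g x y) : PSD (PM g x y) := by
  refine ⟨PM_symm g x y, fun z => ?_⟩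
  rw [gram2_PM_ip]
  have h1 := hg.2 ((y ⬝ᵥ z) • x - (x ⬝ᵥ z) • y)
  rw [gram2_comb hg.1] at h1
  apply mul_nonneg
  · positivity
  · linarith

private theorem gram2_form_pos {g : M4} (hg : PSD g) {x y : V4} (h : 0 < G2 g x y) {a b : ℝ}
    (hab : a ≠ 0) : 0 < ip g y y * a ^ 2 - 2 * ip g x y * a * b + ip g x x * b ^ 2 := by
  have hxx : 0 < ip g x x := by
    rcases (hg.2 x).lt_or_eq with hx | hx
    · exact hx
    · exfalso
      unfold G2 at h
      rw [← hx] at h
      nlinarith [sq_nonneg (ip g x y)]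
  have h1 : ip g x x * (ip g y y * a ^ 2 - 2 * ip g x y * a * b + ip g x x * b ^ 2)
      = (ip g x x * b - ip g x y * a) ^ 2 + G2 g x y * a ^ 2 := by
    unfold G2
    ring
  have h2 : 0 < ip g x x * (ip g y y * a ^ 2 - 2 * ip g x y * a * b + ip g x x * b ^ 2) := by
    rw [h1]
    have : 0 < a ^ 2 := by positivity
    have := mul_pos h this
    have := sq_nonneg (ip g x x * b - ip g x y * a)
    linarith
  exact (pos_iff_pos_of_mul_pos h2).mp hxx

theorem PM_trace_pos {g : M4} (hg : PSD g) {x y : V4} (h : 0 < G2 g x y) :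
    0 < (PM g x y).trace := by
  have hx : x ≠ 0 := by
    intro hx
    have := (indep_of_G2_pos hg h 1 0 (by rw [hx]; simp)).1
    exact one_ne_zero this
  have hi : ∃ i, x i ≠ 0 := by
    by_contra hcon
    push Not at hcon
    exact hx (funext hcon)
  obtain ⟨i, hi⟩ := hi
  have hd : ∀ j : Fin 4, PM g x y j j = (1 / (2 * G2 g x y)) * (ip g y y * (x j) ^ 2
      - 2 * ip g x y * (x j) * (y j) + ip g x x * (y j) ^ 2) := by
    intro j
    simp only [PM, Matrix.smul_apply, Matrix.add_apply, Matrix.sub_apply, vecMulVec_apply, smul_eq_mul]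
    ring
  unfold trace
  apply Finset.sum_pos'
  · intro j _
    rw [diag_apply, hd]
    have h1 := hg.2 ((y j) • x - (x j) • y)
    rw [gram2_comb hg.1] at h1
    apply mul_nonneg
    · positivity
    · linarith
  · refine ⟨i, Finset.mem_univ _, ?_⟩
    rw [diag_apply, hd]
    apply mul_pos
    · positivity
    · exact gram2_form_pos hg h hi

private theorem gram2_conj {g : M4} (hg : gᵀ = g) (M : M4) (z : V4) :
    ip (g * M * g) z z = ip M (g *ᵥ z) (g *ᵥ z) := by
  unfold ip
  rw [← mulVec_mulVec, ← mulVec_mulVec, dotProduct_mulVec, ← mulVec_transpose, hg]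

/-- `2 |P z|² = |z|² - dist²` -/
theorem PM_quad {g : M4} (hg : gᵀ = g) {x y : V4} (h : G2 g x y ≠ 0) (z : V4) :
    2 * ip (g * PM g x y * g) z z = ip g z z - G3 g x y z / G2 g x y := by
  rw [gram2_conj hg, gram2_PM_ip]
  have h1 : x ⬝ᵥ (g *ᵥ z) = ip g x z := rfl
  have h2 : y ⬝ᵥ (g *ᵥ z) = ip g y z := rfl
  rw [h1, h2]
  have h3 : G3 g x y z = ip g z z * G2 g x y - (ip g y y * ip g x z ^ 2
      - 2 * ip g x y * ip g x z * ip g y z + ip g x x * ip g y z ^ 2) := by
    unfold G3 G2
    ring
  rw [h3]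
  field_simp
  ring

private theorem gram2_trace_vmv (g : M4) (a b : V4) :
    (vecMulVec a b * g).trace = ip g b a := by
  simp only [ip, trace, diag_apply, mul_apply, dotProduct, mulVec, vecMulVec_apply,
    Fin.sum_univ_four]
  ring

theorem PM_trace {g : M4} (hg : gᵀ = g) {x y : V4} (h : G2 g x y ≠ 0) :
    (PM g x y * g).trace = 1 := by
  unfold PM
  rw [smul_mul, trace_smul, Matrix.add_mul, Matrix.sub_mul, smul_mul, smul_mul, smul_mul,
    Matrix.add_mul, trace_add, trace_sub, trace_smul, trace_smul, trace_smul, trace_add,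
    gram2_trace_vmv, gram2_trace_vmv, gram2_trace_vmv, gram2_trace_vmv, ip_comm hg y x]
  simp only [smul_eq_mul]
  have h3 : ip g y y * ip g x x - ip g x y * (ip g x y + ip g x y) + ip g x x * ip g y y
      = 2 * G2 g x y := by
    unfold G2
    ring
  rw [h3]
  field_simp

theorem G2_smul (s : ℝ) (g : M4) (x y : V4) : G2 (s • g) x y = s ^ 2 * G2 g x y := by
  unfold G2
  simp only [ip_smul_mat]
  ring

theorem G3_smul (s : ℝ) (g : M4) (x y z : V4) : G3 (s • g) x y z = s ^ 3 * G3 g x y z := by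
  unfold G3
  simp only [ip_smul_mat]
  ring

theorem PM_smul {s : ℝ} (hs : s ≠ 0) (g : M4) (x y : V4) :
    PM (s • g) x y = s⁻¹ • PM g x y := by
  unfold PM
  rw [G2_smul]
  ext i j
  simp only [ip_smul_mat, Matrix.smul_apply, Matrix.add_apply, Matrix.sub_apply, vecMulVec_apply, smul_eq_mul]
  rcases eq_or_ne (G2 g x y) 0 with h | h
  · rw [h]
    simp
  · field_simp

/-- a body is not contained in a hyperplane through the origin -/
theorem Body.functional {η : ℝ} (hη : 0 < η) {C : Set V4} (hC : Body η C) {f : V4}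
    (hf : f ≠ 0) : ∃ z ∈ C, f ⬝ᵥ z ≠ 0 := by
  by_contra hcon
  push Not at hcon
  obtain ⟨x, hx⟩ := hC.ne
  obtain ⟨q, hq3, _, hball⟩ := hC.ball x hx
  have hq : q ∈ C := hball q hq3 (by rw [sub_self, dotProduct_zero]; positivity)
  have hfq := hcon q hq
  have hi : ∀ i : Fin 4, i ≠ 3 → f i = 0 := by
    intro i hi3
    have hmem : q + η • (Pi.single i 1 : V4) ∈ C := by
      apply hball
      · rw [Pi.add_apply, Pi.smul_apply, Pi.single_apply, if_neg (Ne.symm hi3), smul_zero,
          add_zero, hq3]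
      · rw [add_sub_cancel_left, dotProduct_smul, smul_dotProduct, dotProduct_single,
          Pi.single_eq_same]
        apply le_of_eq
        simp only [smul_eq_mul]
        ring
    have h1 := hcon _ hmem
    rw [dotProduct_add, hfq, dotProduct_smul, dotProduct_single, zero_add, mul_one,
      smul_eq_mul] at h1
    exact (mul_eq_zero.mp h1).resolve_left hη.ne'
  apply hf
  have h3 : f 3 = 0 := by
    simp only [dotProduct, Fin.sum_univ_four] at hfq
    rw [hi 0 (by decide), hi 1 (by decide), hi 2 (by decide), hq3] at hfq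
    linarith
  funext i
  by_cases h : i = 3
  · rw [h]
    exact h3
  · exact hi i h

theorem Body.exists_pos {η : ℝ} (hη : 0 < η) {C : Set V4} (hC : Body η C) {g : M4}
    (hg : PSD g) (h0 : g ≠ 0) : ∃ z ∈ C, 0 < ip g z z := by
  by_contra hcon
  push Not at hcon
  apply h0
  have hk : ∀ z ∈ C, g *ᵥ z = 0 := fun z hz => hg.ker (le_antisymm (hcon z hz) (hg.2 z))
  ext i j
  by_contra hij
  have hrow : g i ≠ 0 := by
    intro h
    apply hij
    rw [h]
    rfl
  obtain ⟨z, hz, hne⟩ := hC.functional hη hrow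
  exact hne (congrFun (hk z hz) i)

theorem Body.ne_zero {η : ℝ} {C : Set V4} (hC : Body η C) {z : V4} (hz : z ∈ C) : z ≠ 0 := by
  intro h
  have := hC.last z hz
  rw [h] at this
  exact zero_ne_one this

private theorem gram2_annihilator (u v : V4) : ∃ f : V4, f ≠ 0 ∧ f ⬝ᵥ u = 0 ∧ f ⬝ᵥ v = 0 := by
  have hdet : (Matrix.of ![u, v, 0, 0] : M4).det = 0 := by
    apply det_eq_zero_of_row_eq_zero 2
    intro j
    rfl
  obtain ⟨f, hf, hfe⟩ := exists_mulVec_eq_zero_iff.mpr hdet
  refine ⟨f, hf, ?_, ?_⟩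
  · rw [dotProduct_comm]
    exact congrFun hfe 0
  · rw [dotProduct_comm]
    exact congrFun hfe 1

/-- if the kernel of `g` has dimension at most one, some pair of points of a body has `G2 > 0` -/
theorem Body.exists_G2_pos {η : ℝ} (hη : 0 < η) {C : Set V4} (hC : Body η C) {g : M4}
    (hg : PSD g) {n₀ : V4} (hker : ∀ v, ip g v v = 0 → ∃ s : ℝ, v = s • n₀) :
    ∃ u ∈ C, ∃ v ∈ C, 0 < G2 g u v := by
  have h0 : g ≠ 0 := by
    intro h
    have hz : ∀ v, ip g v v = 0 := by
      intro v
      rw [h]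
      unfold ip
      rw [zero_mulVec, dotProduct_zero]
    obtain ⟨s, hs⟩ := hker (Pi.single 0 1) (hz _)
    obtain ⟨t, ht⟩ := hker (Pi.single 1 1) (hz _)
    have a1 : (1 : ℝ) = s * n₀ 0 := by
      have := congrFun hs 0
      simpa using this
    have a2 : (0 : ℝ) = s * n₀ 1 := by
      have := congrFun hs 1
      simpa using this
    have a3 : (1 : ℝ) = t * n₀ 1 := by
      have := congrFun ht 1
      simpa using this
    rcases mul_eq_zero.mp a2.symm with h4 | h4
    · rw [h4, zero_mul] at a1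
      exact one_ne_zero a1
    · rw [h4, mul_zero] at a3
      exact one_ne_zero a3
  obtain ⟨u, hu, hupos⟩ := hC.exists_pos hη hg h0
  by_contra hcon
  push Not at hcon
  obtain ⟨f, hf, hfu, hfn⟩ := gram2_annihilator u n₀
  obtain ⟨z, hz, hne⟩ := hC.functional hη hf
  have hG : G2 g u z = 0 := le_antisymm (hcon u hu z hz) (G2_nonneg hg u z)
  have hw : ip g (ip g u u • z - ip g u z • u) (ip g u u • z - ip g u z • u) = 0 := by
    rw [gram2_comb hg.1, ip_comm hg.1 z u]
    have h1 : ip g u u * G2 g u z = 0 := by rw [hG, mul_zero]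
    unfold G2 at h1
    linarith
  obtain ⟨s, hs⟩ := hker _ hw
  have h2 : f ⬝ᵥ (ip g u u • z - ip g u z • u) = 0 := by
    rw [hs, dotProduct_smul, hfn, smul_zero]
  rw [dotProduct_sub, dotProduct_smul, dotProduct_smul, hfu, smul_zero, sub_zero,
    smul_eq_mul] at h2
  exact hne ((mul_eq_zero.mp h2).resolve_left hupos.ne')

end LT75
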