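import Pool.Agent.LT75.StageH

/-!
# Module LT-LIMIT (MP_7814b8_co, helper75): the limit `ε → 0`

Take `ε_m = 1/(m+1)` and the data of `stageH`. All matrices `S_m, Γ_m, H_{m,i}` have entries in `[-1, 1]`
(PSD with trace `≤ 4` or `≤ 1`: `S i j² ≤ S i i S j j`; for `Γ`: `PSD Γ`, `PSD (1-Γ)` give `0 ≤ Γ i i ≤ 1`;
`H i ≤ φ i Γ`), `φ_m ∈ [0,1]^ι`, and the index `i_m` lies in a finite set. So there is a strictly increasing
subsequence along which everything converges and `i_m` is constant (`IsCompact.tendsto_subseq` in the product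
`M4 × M4 × (ι → ℝ) × (ι → M4)`, all sets `{| | ≤ 1}` compact; then
pigeonhole, `Finite.exists_infinite_fiber` or the discrete topology on `ι` in the compactness argument). All clauses of `StageH`
are closed conditions, continuous in `ε` too.
-/

set_option autoImplicit false

namespace LT75

open Matrix Filter Topology

namespace Lim

theorem ip_single (g : M4) (a b : Fin 4) : ip g (Pi.single a 1) (Pi.single b 1) = g a b := by
  unfold ip
  rw [Matrix.mulVec_single_one, single_one_dotProduct]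
  rfl

theorem ip_add_left (g : M4) (x y z : V4) : ip g (x + y) z = ip g x z + ip g y z := by
  unfold ip; rw [add_dotProduct]

theorem ip_add_right (g : M4) (x y z : V4) : ip g x (y + z) = ip g x y + ip g x z := by
  unfold ip; rw [mulVec_add, dotProduct_add]

theorem ip_neg_left (g : M4) (x z : V4) : ip g (-x) z = -ip g x z := by
  unfold ip; rw [neg_dotProduct]

theorem ip_neg_right (g : M4) (x z : V4) : ip g x (-z) = -ip g x z := by
  unfold ip; rw [mulVec_neg, dotProduct_neg]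

theorem psd_diag {g : M4} (h : PSD g) (a : Fin 4) : 0 ≤ g a a := by
  have := h.2 (Pi.single a 1)
  rwa [ip_single] at this

theorem psd_symm {g : M4} (h : PSD g) (a b : Fin 4) : g a b = g b a := by
  have := congrFun (congrFun h.1 b) a
  simpa using this

theorem psd_entry {g : M4} (h : PSD g) {K : ℝ} (hK : ∀ a, g a a ≤ K) (a b : Fin 4) :
    g a b ∈ Set.Icc (-K) K := by
  have h1 := h.2 (Pi.single a 1 + Pi.single b 1)
  have h2 := h.2 (Pi.single a 1 + -Pi.single b 1)
  simp only [ip_add_left, ip_add_right, ip_neg_left, ip_neg_right, ip_single] at h1 h2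
  have h3 := psd_symm h a b
  have h4 := hK a
  have h5 := hK b
  constructor <;> linarith

theorem cont_ip (x y : V4) : Continuous fun g : M4 => ip g x y := by
  unfold ip
  exact Continuous.dotProduct continuous_const (Continuous.matrix_mulVec continuous_id continuous_const)

theorem isClosed_psd : IsClosed {g : M4 | PSD g} := by
  have : {g : M4 | PSD g} = {g : M4 | gᵀ = g} ∩ ⋂ x : V4, {g : M4 | 0 ≤ ip g x x} := by
    ext g
    simp [PSD]
  rw [this]
  refine IsClosed.inter (isClosed_eq (Continuous.matrix_transpose continuous_id) continuous_id) ?_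
  exact isClosed_iInter fun x => isClosed_le continuous_const (cont_ip x x)

end Lim

theorem limit_data {ι : Type} [Fintype ι] (C : ι → Set V4)
    (h : ∀ ε : ℝ, 0 < ε → ∃ (S g : M4) (φ : ι → ℝ) (H : ι → M4), PD g ∧
      StageH C ε S (ε • g) φ H ∧ ∃ i x y, Adm g (C i) x y ∧ 1 / 4 ≤ (PM g x y).trace) :
    ∃ (S Γ : M4) (φ : ι → ℝ) (H : ι → M4), StageH C 0 S Γ φ H ∧
      ∃ (i : ι) (e : ℕ → ℝ) (g : ℕ → M4) (x y : ℕ → V4), (∀ m, 0 < e m) ∧
        Tendsto e atTop (𝓝 0) ∧ (∀ m, PD (g m)) ∧ Tendsto (fun m => e m • g m) atTop (𝓝 Γ) ∧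
        (∀ m, Adm (g m) (C i) (x m) (y m)) ∧ ∀ m, 1 / 4 ≤ (PM (g m) (x m) (y m)).trace := by
  have hpos : ∀ m : ℕ, 0 < 1 / ((m : ℝ) + 1) := fun m => by positivity
  choose S g φ H hg hst i x y hadm htr using fun m : ℕ => h (1 / ((m : ℝ) + 1)) (hpos m)
  -- the index is constant on a subsequence
  obtain ⟨i0, hi0⟩ : ∃ i0, ∃ᶠ m in atTop, i m = i0 := by
    by_contra hcon
    have h1 : ∀ᶠ m in atTop, ∀ j, i m ≠ j := by
      refine eventually_all.2 fun j => ?_
      by_contra h2
      exact hcon ⟨j, by simpa [Filter.Frequently] using h2⟩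
    obtain ⟨m, hm⟩ := h1.exists
    exact hm _ rfl
  obtain ⟨α, hα, hαi⟩ := extraction_of_frequently_atTop hi0
  -- bounds
  set Γ : ℕ → M4 := fun m => (1 / ((m : ℝ) + 1)) • g m with hΓdef
  have hSb : ∀ m a b, S m a b ∈ Set.Icc (-1 : ℝ) 1 := by
    intro m a b
    refine Lim.psd_entry (hst m).hS (fun c => ?_) a b
    have h1 := (hst m).trS
    rw [Matrix.trace] at h1
    rw [← h1]
    exact Finset.single_le_sum (f := fun c => (S m).diag c)
      (fun c _ => Lim.psd_diag (hst m).hS c) (Finset.mem_univ c)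
  have hΓd : ∀ m a, Γ m a a ≤ 1 := by
    intro m a
    have := Lim.psd_diag (hst m).hΓ1 a
    rw [Matrix.sub_apply, Matrix.one_apply_eq] at this
    linarith
  have hΓb : ∀ m a b, Γ m a b ∈ Set.Icc (-1 : ℝ) 1 := fun m a b =>
    Lim.psd_entry (hst m).hΓ (hΓd m) a b
  have hφb : ∀ m j, φ m j ∈ Set.Icc (-1 : ℝ) 1 := by
    intro m j
    refine ⟨by linarith [(hst m).φ0 j], ?_⟩
    rw [← (hst m).φ1]
    exact Finset.single_le_sum (fun c _ => (hst m).φ0 c) (Finset.mem_univ j)
  have hHb : ∀ m j a b, H m j a b ∈ Set.Icc (-1 : ℝ) 1 := by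
    intro m j a b
    refine Lim.psd_entry ((hst m).H0 j) (fun c => ?_) a b
    have h1 := Lim.psd_diag ((hst m).H1 j) c
    rw [Matrix.sub_apply, Matrix.smul_apply, smul_eq_mul] at h1
    have h2 : 0 ≤ Γ m c c := Lim.psd_diag (hst m).hΓ c
    have h3 := hΓd m c
    have h4 := (hst m).φ0 j
    have h5 := (hφb m j).2
    have h6 : φ m j * Γ m c c ≤ 1 := by nlinarith
    have h7 : H m j c c ≤ φ m j * Γ m c c := by linarith
    linarith
  -- compactness
  let K1 : Set (Fin 4 → Fin 4 → ℝ) := Set.univ.pi fun _ => Set.univ.pi fun _ => Set.Icc (-1) 1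
  have hK1 : IsCompact K1 := isCompact_univ_pi fun _ => isCompact_univ_pi fun _ => isCompact_Icc
  let K2 : Set (ι → ℝ) := Set.univ.pi fun _ => Set.Icc (-1) 1
  have hK2 : IsCompact K2 := isCompact_univ_pi fun _ => isCompact_Icc
  let K3 : Set (ι → Fin 4 → Fin 4 → ℝ) := Set.univ.pi fun _ => K1
  have hK3 : IsCompact K3 := isCompact_univ_pi fun _ => hK1
  have hK : IsCompact (K1 ×ˢ (K1 ×ˢ (K2 ×ˢ K3))) := hK1.prod (hK1.prod (hK2.prod hK3))
  let q : ℕ → (Fin 4 → Fin 4 → ℝ) × (Fin 4 → Fin 4 → ℝ) × (ι → ℝ) × (ι → Fin 4 → Fin 4 → ℝ) :=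
    fun m => (S (α m), Γ (α m), φ (α m), H (α m))
  have hq : ∀ m, q m ∈ K1 ×ˢ (K1 ×ˢ (K2 ×ˢ K3)) := by
    intro m
    refine ⟨fun a _ b _ => hSb _ a b, fun a _ b _ => hΓb _ a b, fun j _ => hφb _ j,
      fun j _ a _ b _ => hHb _ j a b⟩
  obtain ⟨L, -, β, hβ, hlim⟩ := hK.tendsto_subseq hq
  have hlS : Tendsto (fun m => S (α (β m))) atTop (𝓝 (show M4 from L.1)) :=
    (continuous_fst.tendsto L).comp hlim
  have hlΓ : Tendsto (fun m => Γ (α (β m))) atTop (𝓝 (show M4 from L.2.1)) :=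
    ((continuous_fst.comp continuous_snd).tendsto L).comp hlim
  have hlφ : Tendsto (fun m => φ (α (β m))) atTop (𝓝 L.2.2.1) :=
    ((continuous_fst.comp (continuous_snd.comp continuous_snd)).tendsto L).comp hlim
  have hlH : Tendsto (fun m => H (α (β m))) atTop (𝓝 (show ι → M4 from L.2.2.2)) :=
    ((continuous_snd.comp (continuous_snd.comp continuous_snd)).tendsto L).comp hlim
  generalize (show M4 from L.1) = S' at hlS
  generalize (show M4 from L.2.1) = Γ' at hlΓ
  generalize L.2.2.1 = φ' at hlφ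
  generalize (show ι → M4 from L.2.2.2) = H' at hlH
  have hle : Tendsto (fun m => 1 / (((α (β m) : ℕ) : ℝ) + 1)) atTop (𝓝 0) :=
    tendsto_one_div_add_atTop_nhds_zero_nat.comp (hα.tendsto_atTop.comp hβ.tendsto_atTop)
  have hlφj : ∀ j, Tendsto (fun m => φ (α (β m)) j) atTop (𝓝 (φ' j)) :=
    fun j => ((continuous_apply j).tendsto φ').comp hlφ
  have hlHj : ∀ j, Tendsto (fun m => H (α (β m)) j) atTop (𝓝 (H' j)) :=
    fun j => ((continuous_apply j).tendsto H').comp hlH
  have hlip : ∀ u v : V4, Tendsto (fun m => ip (Γ (α (β m))) u v) atTop (𝓝 (ip Γ' u v)) :=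
    fun u v => ((Lim.cont_ip u v).tendsto Γ').comp hlΓ
  have htrc : Tendsto (fun m => (Γ (α (β m))).trace) atTop (𝓝 Γ'.trace) :=
    ((Continuous.matrix_trace continuous_id).tendsto Γ').comp hlΓ
  refine ⟨S', Γ', φ', H', ?_, i0, fun m => 1 / (((α (β m) : ℕ) : ℝ) + 1), fun m => g (α (β m)),
    fun m => x (α (β m)), fun m => y (α (β m)), fun m => hpos _, hle, fun m => hg _, hlΓ,
    fun m => ?_, fun m => htr _⟩
  · refine ⟨?_, ?_, ?_, ?_, ?_, ?_, ?_, ?_, ?_, ?_, ?_, ?_⟩
    · exact Lim.isClosed_psd.mem_of_tendsto hlS (Eventually.of_forall fun m => (hst _).hS)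
    · have h1 : Tendsto (fun m => (S (α (β m))).trace) atTop (𝓝 S'.trace) :=
        ((Continuous.matrix_trace continuous_id).tendsto S').comp hlS
      refine tendsto_nhds_unique h1 ?_
      simp only [(hst _).trS]
      exact tendsto_const_nhds
    · exact Lim.isClosed_psd.mem_of_tendsto hlΓ (Eventually.of_forall fun m => (hst _).hΓ)
    · exact Lim.isClosed_psd.mem_of_tendsto (tendsto_const_nhds.sub hlΓ)
        (Eventually.of_forall fun m => (hst _).hΓ1)
    · have h1 : Tendsto (fun m => Γ (α (β m)) *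
          (S (α (β m)) + (1 / (((α (β m) : ℕ) : ℝ) + 1)) • (1 : M4))) atTop
          (𝓝 (Γ' * (S' + (0 : ℝ) • (1 : M4)))) :=
        hlΓ.mul (hlS.add (hle.smul_const _))
      have h2 : Tendsto (fun m => (1 / (((α (β m) : ℕ) : ℝ) + 1)) • (1 : M4)) atTop
          (𝓝 ((0 : ℝ) • (1 : M4))) := hle.smul_const _
      refine tendsto_nhds_unique h1 ?_
      refine h2.congr fun m => ?_
      exact ((hst (α (β m))).hmul).symm
    · exact ge_of_tendsto' htrc fun m => (hst _).trΓ
    · exact fun j => ge_of_tendsto' (hlφj j) fun m => (hst _).φ0 j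
    · have h1 : Tendsto (fun m => ∑ j, φ (α (β m)) j) atTop (𝓝 (∑ j, φ' j)) :=
        tendsto_finsetSum _ fun j _ => hlφj j
      refine tendsto_nhds_unique h1 ?_
      simp only [(hst _).φ1]
      exact tendsto_const_nhds
    · exact fun j => Lim.isClosed_psd.mem_of_tendsto (hlHj j)
        (Eventually.of_forall fun m => (hst _).H0 j)
    · exact fun j => Lim.isClosed_psd.mem_of_tendsto (((hlφj j).smul hlΓ).sub (hlHj j))
        (Eventually.of_forall fun m => (hst _).H1 j)
    · have h1 : Tendsto (fun m => (4 - (Γ (α (β m))).trace) • ∑ j, H (α (β m)) j) atTop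
          (𝓝 ((4 - Γ'.trace) • ∑ j, H' j)) :=
        (tendsto_const_nhds.sub htrc).smul (tendsto_finsetSum _ fun j _ => hlHj j)
      have h2 : Tendsto (fun m => (2 : ℝ) • (Γ (α (β m)) - Γ (α (β m)) * Γ (α (β m)))) atTop
          (𝓝 ((2 : ℝ) • (Γ' - Γ' * Γ'))) := (hlΓ.sub (hlΓ.mul hlΓ)).const_smul _
      refine tendsto_nhds_unique h1 (h2.congr fun m => ?_)
      exact ((hst (α (β m))).sum).symm
    · intro j z hz
      refine le_of_tendsto_of_tendsto' (((hlφj j).mul (hlip z z)).const_mul _)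
        (((Lim.cont_ip z z).tendsto (H' j)).comp (hlHj j)) fun m => ?_
      exact (hst _).thin j z hz
  · have h1 := hadm (α (β m))
    rwa [hαi] at h1

end LT75
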