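import Pool.Agent.LT75.Pair

/-!
# Module LT-NC (MP_7814b8_co, helper75): non-cancellation

Write `g = Aᵀ A` and replace `x k, y k` by `A x k, A y k` (`PM_conj`): `trace (PM g · * g * PM g · * g)`
`= trace (PM 1 X Y * PM 1 X' Y')`, so everything is Euclidean.

`pair_bound`: let `p` be as in `hmeet`, `u, v` and `u', v'` the orthonormal bases of `exists_onb` for `p`.
Then `(u·p)² ≥ (1 - κ)|p|²`, the same for `u'`, `κ = 1/1000`. Normalise `|p| = 1`, choose the signs of `u, u'` such that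
`u·p, u'·p ≥ 0`; `|u - p|² = 2 - 2 u·p ≤ 2κ`, so `|u - u'|² ≤ 8κ`, `u·u' ≥ 1 - 4κ`, `(u·u')² ≥ 1 - 8κ`.
`4 trace (PM PM') = c11² + c12² + c21² + c22²` (`c` the inner products of `u, v` with `u', v'`), and
`(c11 c22 - c12 c21)² ≤ (c11² + c12²)(c22² + c21²) ≤ c22² + c21²` because `c11² + c12² ≤ |u|² = 1` (Bessel). So
`4 trace (PM PM') ≥ c11² + (c11 c22 - c12 c21)²`, and `(c11 c22 - c12 c21)² = (ω·ω')²`, where `ω` is the unit Pluecker
vector `ω_{ij} = (x_i y_j - x_j y_i)/sqrt (2 G2)` in `R^16` (Lagrange identity).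

`noncancel`: sum over pairs: `4 Σ w w' trace ≥ 1 - 8κ + Σ w w' (ω·ω')²`, and with
`Ω_{ab} = Σ w_k ω_k(a) ω_k(b)` (`a, b` in the 16 index pairs) `Σ w w' (ω·ω')² = Σ_{ab} Ω_{ab}² ≥ Σ_a Ω_{aa}² ≥ (Σ_a Ω_aa)²/16`
`= 1/16`. The constant: `(1 + 1/16 - 8/1000)/4 = 2109/8000`.
-/

set_option autoImplicit false

namespace LT75

open Matrix

private lemma nc_frame {α : Type} [Fintype α] {n : ℕ} (w : Fin n → ℝ) (hw1 : ∑ k, w k = 1)
    (f : Fin n → α → ℝ) (hf : ∀ k, ∑ a, f k a ^ 2 = 1) :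
    1 ≤ (Fintype.card α : ℝ) * ∑ k, ∑ l, w k * w l * (∑ a, f k a * f l a) ^ 2 := by
  classical
  set Om : α → α → ℝ := fun a b => ∑ k, w k * f k a * f k b with hOm
  have h1 : ∑ k, ∑ l, w k * w l * (∑ a, f k a * f l a) ^ 2 = ∑ a, ∑ b, Om a b ^ 2 := by
    have e1 : ∀ k l, w k * w l * (∑ a, f k a * f l a) ^ 2 =
        ∑ a, ∑ b, (w k * f k a * f k b) * (w l * f l a * f l b) := by
      intro k l
      rw [sq, Finset.sum_mul_sum, Finset.mul_sum]
      refine Finset.sum_congr rfl fun a _ => ?_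
      rw [Finset.mul_sum]
      refine Finset.sum_congr rfl fun b _ => ?_
      ring
    have e2 : ∀ a b, Om a b ^ 2 = ∑ k, ∑ l, (w k * f k a * f k b) * (w l * f l a * f l b) := by
      intro a b
      rw [hOm, sq, Finset.sum_mul_sum]
    simp only [e1, e2]
    have c1 : ∀ k, ∑ l, ∑ a, ∑ b, (w k * f k a * f k b) * (w l * f l a * f l b) =
        ∑ a, ∑ b, ∑ l, (w k * f k a * f k b) * (w l * f l a * f l b) := by
      intro k
      rw [Finset.sum_comm]
      refine Finset.sum_congr rfl fun a _ => ?_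
      rw [Finset.sum_comm]
    simp only [c1]
    rw [Finset.sum_comm]
    refine Finset.sum_congr rfl fun a _ => ?_
    rw [Finset.sum_comm]
  have h2 : ∑ a, Om a a ^ 2 ≤ ∑ a, ∑ b, Om a b ^ 2 := by
    refine Finset.sum_le_sum fun a _ => ?_
    exact Finset.single_le_sum (f := fun b => Om a b ^ 2) (fun b _ => sq_nonneg _)
      (Finset.mem_univ a)
  have h3 : (∑ a, Om a a) ^ 2 ≤ (Fintype.card α : ℝ) * ∑ a, Om a a ^ 2 := by
    have := sq_sum_le_card_mul_sum_sq (s := (Finset.univ : Finset α)) (f := fun a => Om a a)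
    simpa using this
  have h4 : ∑ a, Om a a = 1 := by
    rw [hOm]
    simp only
    rw [Finset.sum_comm]
    calc ∑ k, ∑ a, w k * f k a * f k a = ∑ k, w k * ∑ a, f k a ^ 2 := by
          refine Finset.sum_congr rfl fun k _ => ?_
          rw [Finset.mul_sum]
          refine Finset.sum_congr rfl fun a _ => ?_
          ring
      _ = 1 := by simp only [hf, mul_one, hw1]
  rw [h4] at h3
  rw [h1]
  have h5 : (0 : ℝ) ≤ (Fintype.card α : ℝ) := Nat.cast_nonneg _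
  nlinarith [mul_le_mul_of_nonneg_left h2 h5]

theorem noncancel {g : M4} (hg : PD g) {n : ℕ} (w : Fin n → ℝ) (hw : ∀ k, 0 ≤ w k)
    (hw1 : ∑ k, w k = 1) (x y : Fin n → V4) (hpos : ∀ k, 0 < G2 g (x k) (y k))
    (hmeet : ∀ k l, ∃ p : V4, p ≠ 0 ∧
      1000 * G3 g (x k) (y k) p ≤ G2 g (x k) (y k) * ip g p p ∧
      1000 * G3 g (x l) (y l) p ≤ G2 g (x l) (y l) * ip g p p) :
    2109 / 8000 ≤ ((∑ k, w k • PM g (x k) (y k)) * g *
      ((∑ k, w k • PM g (x k) (y k)) * g)).trace := by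
  obtain ⟨A, hA, rfl⟩ := exists_sqrt hg
  set X : Fin n → V4 := fun k => A *ᵥ x k with hX
  set Y : Fin n → V4 := fun k => A *ᵥ y k with hY
  have hG : ∀ k, 0 < G2 1 (X k) (Y k) := by
    intro k
    have := hpos k
    rwa [G2_conj] at this
  set S : M4 := ∑ k, w k • PM (Aᵀ * A) (x k) (y k) with hS
  have hAS : A * S * Aᵀ = ∑ k, w k • PM 1 (X k) (Y k) := by
    rw [hS, Finset.mul_sum, Finset.sum_mul]
    refine Finset.sum_congr rfl fun k _ => ?_
    rw [Matrix.mul_smul, Matrix.smul_mul, PM_conj]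
  have htr : (S * (Aᵀ * A) * (S * (Aᵀ * A))).trace = ((A * S * Aᵀ) * (A * S * Aᵀ)).trace := by
    have e1 : S * (Aᵀ * A) * (S * (Aᵀ * A)) = (S * Aᵀ * A * S * Aᵀ) * A := by
      simp only [Matrix.mul_assoc]
    have e2 : (A * S * Aᵀ) * (A * S * Aᵀ) = A * (S * Aᵀ * A * S * Aᵀ) := by
      simp only [Matrix.mul_assoc]
    rw [e1, e2, Matrix.trace_mul_comm]
  rw [htr, hAS]
  have hexp : ((∑ k, w k • PM 1 (X k) (Y k)) * (∑ k, w k • PM 1 (X k) (Y k))).trace =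
      ∑ k, ∑ l, w k * w l * (PM 1 (X k) (Y k) * PM 1 (X l) (Y l)).trace := by
    rw [Finset.sum_mul_sum, Matrix.trace_sum]
    refine Finset.sum_congr rfl fun k _ => ?_
    rw [Matrix.trace_sum]
    refine Finset.sum_congr rfl fun l _ => ?_
    rw [Matrix.smul_mul, Matrix.mul_smul, Matrix.trace_smul, Matrix.trace_smul, smul_eq_mul,
      smul_eq_mul]
    ring
  rw [hexp]
  have hpair : ∀ k l, 1 - 8 / 1000 +
      (∑ a : Fin 4 × Fin 4, plu (X k) (Y k) a.1 a.2 * plu (X l) (Y l) a.1 a.2) ^ 2 ≤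
      4 * (PM 1 (X k) (Y k) * PM 1 (X l) (Y l)).trace := by
    intro k l
    obtain ⟨p, hp, h1, h2⟩ := hmeet k l
    rw [G3_conj, G2_conj, ip_conj] at h1 h2
    have hp' : A *ᵥ p ≠ 0 := by
      intro h0
      apply hp
      have h3 : A⁻¹ *ᵥ (A *ᵥ p) = 0 := by rw [h0, Matrix.mulVec_zero]
      rwa [Matrix.mulVec_mulVec, Matrix.nonsing_inv_mul A hA, Matrix.one_mulVec] at h3
    have h3 := pair_bound (hG k) (hG l) hp' h1 h2
    rw [Fintype.sum_prod_type]
    exact h3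
  have hfr := nc_frame (α := Fin 4 × Fin 4) w hw1 (fun k a => plu (X k) (Y k) a.1 a.2)
    (by
      intro k
      rw [Fintype.sum_prod_type]
      exact plu_norm (hG k))
  have hcard : (Fintype.card (Fin 4 × Fin 4) : ℝ) = 16 := by
    norm_num [Fintype.card_prod]
  rw [hcard] at hfr
  have hww : ∑ k, ∑ l, w k * w l = 1 := by
    rw [← Finset.sum_mul_sum, hw1, mul_one]
  have hsum : ∑ k, ∑ l, w k * w l * (1 - 8 / 1000 +
      (∑ a : Fin 4 × Fin 4, plu (X k) (Y k) a.1 a.2 * plu (X l) (Y l) a.1 a.2) ^ 2) ≤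
      ∑ k, ∑ l, w k * w l * (4 * (PM 1 (X k) (Y k) * PM 1 (X l) (Y l)).trace) := by
    refine Finset.sum_le_sum fun k _ => Finset.sum_le_sum fun l _ => ?_
    exact mul_le_mul_of_nonneg_left (hpair k l) (mul_nonneg (hw k) (hw l))
  have e3 : ∑ k, ∑ l, w k * w l * (1 - 8 / 1000 +
      (∑ a : Fin 4 × Fin 4, plu (X k) (Y k) a.1 a.2 * plu (X l) (Y l) a.1 a.2) ^ 2) =
      (1 - 8 / 1000) + ∑ k, ∑ l, w k * w l *
        (∑ a : Fin 4 × Fin 4, plu (X k) (Y k) a.1 a.2 * plu (X l) (Y l) a.1 a.2) ^ 2 := by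
    have : ∀ k l, w k * w l * (1 - 8 / 1000 +
      (∑ a : Fin 4 × Fin 4, plu (X k) (Y k) a.1 a.2 * plu (X l) (Y l) a.1 a.2) ^ 2) =
      (1 - 8 / 1000) * (w k * w l) + w k * w l *
        (∑ a : Fin 4 × Fin 4, plu (X k) (Y k) a.1 a.2 * plu (X l) (Y l) a.1 a.2) ^ 2 := by
      intro k l
      ring
    simp only [this, Finset.sum_add_distrib]
    congr 1
    calc ∑ k, ∑ l, (1 - 8 / 1000 : ℝ) * (w k * w l) =
        (1 - 8 / 1000 : ℝ) * ∑ k, ∑ l, w k * w l := by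
          rw [Finset.mul_sum]
          refine Finset.sum_congr rfl fun k _ => ?_
          rw [Finset.mul_sum]
      _ = 1 - 8 / 1000 := by rw [hww, mul_one]
  have e4 : ∑ k, ∑ l, w k * w l * (4 * (PM 1 (X k) (Y k) * PM 1 (X l) (Y l)).trace) =
      4 * ∑ k, ∑ l, w k * w l * (PM 1 (X k) (Y k) * PM 1 (X l) (Y l)).trace := by
    simp only [Finset.mul_sum]
    refine Finset.sum_congr rfl fun k _ => Finset.sum_congr rfl fun l _ => ?_
    ring
  rw [e3, e4] at hsum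
  linarith

end LT75
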