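import Pool.Agent.LT75.Chol

/-!
# Module LT-ONB (MP_7814b8_co, helper75): orthonormal basis of a plane, adapted to a vector `p`

`exists_onb`: the plane of `x, y` (`G2 1 x y > 0`) has an orthonormal basis `u, v` with
`2 • PM 1 x y = u uᵀ + v vᵀ`, and `u` can be chosen in the direction of the projection of a given vector `p`:
`(u·p)² = |P p|² = |p|² - G3/G2`, `v·p = 0`. (Gram-Schmidt; take `u = P p/|P p|` if `P p ≠ 0`, otherwise
`u = x/|x|`, and `v` the unit vector in the plane orthogonal to `u`. For vectors `a x + b y` of the plane: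
if `u, v` is any orthonormal basis of `span (x,y)` then `2 PM 1 x y` and `u uᵀ + v vᵀ` are both the orthogonal
projection; or show it by writing `x = a u + b v`, `y = c u + d v` and computing, `G2 = (ad - bc)²`.)
The last clause is the Pluecker vector: `x_i y_j - x_j y_i = ± sqrt G2 (u_i v_j - u_j v_i)`.
-/

set_option autoImplicit false

namespace LT75

open Matrix

private theorem onb_ip (x y : V4) : ip 1 x y = x ⬝ᵥ y := by
  simp [ip]

/-- a rotation which takes the second coordinate of `(α, β)` to zero -/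
private theorem onb_rot (α β : ℝ) : ∃ s t : ℝ, s ^ 2 + t ^ 2 = 1 ∧ -t * α + s * β = 0 := by
  by_cases h : α ^ 2 + β ^ 2 = 0
  · refine ⟨1, 0, by norm_num, ?_⟩
    have hb : β = 0 := by nlinarith [sq_nonneg α, sq_nonneg β]
    simp [hb]
  · have hpos : 0 < α ^ 2 + β ^ 2 := lt_of_le_of_ne (by positivity) (Ne.symm h)
    have hr : Real.sqrt (α ^ 2 + β ^ 2) ≠ 0 := (Real.sqrt_pos.mpr hpos).ne'
    have hr2 : Real.sqrt (α ^ 2 + β ^ 2) ^ 2 = α ^ 2 + β ^ 2 := Real.sq_sqrt hpos.le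
    refine ⟨α / Real.sqrt (α ^ 2 + β ^ 2), β / Real.sqrt (α ^ 2 + β ^ 2), ?_, ?_⟩
    · rw [div_pow, div_pow, hr2, ← add_div, div_self h]
    · field_simp
      ring

/-- Gram-Schmidt for two vectors -/
private theorem onb_gs {x y : V4} (h : 0 < G2 1 x y) :
    ∃ (e f : V4) (a c d : ℝ), 0 < a ∧ 0 < d ∧ e ⬝ᵥ e = 1 ∧ f ⬝ᵥ f = 1 ∧ e ⬝ᵥ f = 0 ∧
      x = a • e ∧ y = c • e + d • f := by
  unfold G2 at h
  simp only [onb_ip] at h
  set A : ℝ := x ⬝ᵥ x with hA
  set B : ℝ := x ⬝ᵥ y with hB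
  set C : ℝ := y ⬝ᵥ y with hC
  have hAnn : 0 ≤ A := by
    rw [hA]
    simp only [dotProduct]
    exact Finset.sum_nonneg (fun i _ => mul_self_nonneg _)
  have hApos : 0 < A := by
    rcases hAnn.lt_or_eq with h1 | h1
    · exact h1
    · exfalso
      rw [← h1] at h
      nlinarith [sq_nonneg B]
  have hsA : 0 < Real.sqrt A := Real.sqrt_pos.mpr hApos
  have hsA2 : Real.sqrt A ^ 2 = A := Real.sq_sqrt hAnn
  have hsD : 0 < Real.sqrt (A * C - B ^ 2) := Real.sqrt_pos.mpr h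
  have hsD2 : Real.sqrt (A * C - B ^ 2) ^ 2 = A * C - B ^ 2 := Real.sq_sqrt h.le
  set a : ℝ := Real.sqrt A with ha
  set D : ℝ := Real.sqrt (A * C - B ^ 2) with hD
  have hyx : y ⬝ᵥ x = B := by rw [hB, dotProduct_comm]
  refine ⟨a⁻¹ • x, (a * D)⁻¹ • (A • y - B • x), a, B / a, D / a, hsA, div_pos hsD hsA, ?_, ?_, ?_,
    ?_, ?_⟩
  · rw [smul_dotProduct, dotProduct_smul, ← hA, smul_eq_mul, smul_eq_mul, ← hsA2]
    field_simp
  · rw [smul_dotProduct, dotProduct_smul, sub_dotProduct, dotProduct_sub, dotProduct_sub,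
      smul_dotProduct, smul_dotProduct, smul_dotProduct, smul_dotProduct,
      dotProduct_smul, dotProduct_smul, dotProduct_smul, dotProduct_smul, ← hA, ← hB, ← hC, hyx]
    simp only [smul_eq_mul]
    have h1 : A * (A * C) - A * (B * B) - (B * (A * B) - B * (B * A)) = a ^ 2 * D ^ 2 := by
      rw [hsA2, hsD2]; ring
    have h2 : (a * D)⁻¹ * ((a * D)⁻¹ * (A * (A * C) - A * (B * B) - (B * (A * B) - B * (B * A))))
        = 1 := by
      rw [h1]
      field_simp
    convert h2 using 3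
  · rw [smul_dotProduct, dotProduct_smul, dotProduct_sub, dotProduct_smul, dotProduct_smul,
      ← hA, ← hB]
    simp only [smul_eq_mul]
    ring
  · rw [smul_smul, mul_inv_cancel₀ hsA.ne', one_smul]
  · ext i
    simp only [Pi.add_apply, Pi.smul_apply, Pi.sub_apply, smul_eq_mul]
    field_simp
    rw [hsA2]
    ring

theorem exists_onb {x y : V4} (h : 0 < G2 1 x y) (p : V4) :
    ∃ u v : V4, u ⬝ᵥ u = 1 ∧ v ⬝ᵥ v = 1 ∧ u ⬝ᵥ v = 0 ∧ v ⬝ᵥ p = 0 ∧
      (u ⬝ᵥ p) ^ 2 = p ⬝ᵥ p - G3 1 x y p / G2 1 x y ∧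
      (2 : ℝ) • PM 1 x y = vecMulVec u u + vecMulVec v v ∧
      ((∀ i j, x i * y j - x j * y i = Real.sqrt (G2 1 x y) * (u i * v j - u j * v i)) ∨
        (∀ i j, x i * y j - x j * y i = -(Real.sqrt (G2 1 x y) * (u i * v j - u j * v i)))) := by
  obtain ⟨e, f, a, c, d, ha, hd, hee, hff, hef, hx, hy⟩ := onb_gs h
  have hfe : f ⬝ᵥ e = 0 := by rw [dotProduct_comm]; exact hef
  obtain ⟨s, t, hst, hrot⟩ := onb_rot (e ⬝ᵥ p) (f ⬝ᵥ p)
  have hxx : ip 1 x x = a ^ 2 := by
    rw [onb_ip, hx]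
    simp only [smul_dotProduct, dotProduct_smul, smul_eq_mul, hee]
    ring
  have hxy : ip 1 x y = a * c := by
    rw [onb_ip, hx, hy]
    simp only [smul_dotProduct, dotProduct_smul, dotProduct_add, smul_eq_mul, hee, hef]
    ring
  have hyy : ip 1 y y = c ^ 2 + d ^ 2 := by
    rw [onb_ip, hy]
    simp only [smul_dotProduct, dotProduct_smul, dotProduct_add, add_dotProduct, smul_eq_mul, hee,
      hef, hfe, hff]
    ring
  have hxp : ip 1 x p = a * (e ⬝ᵥ p) := by
    rw [onb_ip, hx]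
    simp only [smul_dotProduct, smul_eq_mul]
  have hyp : ip 1 y p = c * (e ⬝ᵥ p) + d * (f ⬝ᵥ p) := by
    rw [onb_ip, hy]
    simp only [smul_dotProduct, add_dotProduct, smul_eq_mul]
  have hG2 : G2 1 x y = (a * d) ^ 2 := by
    unfold G2
    rw [hxx, hxy, hyy]
    ring
  have hG3 : G3 1 x y p = (a * d) ^ 2 * (p ⬝ᵥ p - (e ⬝ᵥ p) ^ 2 - (f ⬝ᵥ p) ^ 2) := by
    unfold G3
    rw [hxx, hxy, hyy, hxp, hyp, onb_ip p p]
    ring
  have hsq : Real.sqrt (G2 1 x y) = a * d := by
    rw [hG2, Real.sqrt_sq (mul_pos ha hd).le]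
  refine ⟨s • e + t • f, (-t) • e + s • f, ?_, ?_, ?_, ?_, ?_, ?_, Or.inl ?_⟩
  · simp only [smul_dotProduct, dotProduct_smul, dotProduct_add, add_dotProduct, smul_eq_mul, hee,
      hef, hfe, hff]
    linarith
  · simp only [smul_dotProduct, dotProduct_smul, dotProduct_add, add_dotProduct, smul_eq_mul, hee,
      hef, hfe, hff]
    linarith
  · simp only [smul_dotProduct, dotProduct_smul, dotProduct_add, add_dotProduct, smul_eq_mul, hee,
      hef, hfe, hff]
    ring
  · simp only [smul_dotProduct, add_dotProduct, smul_eq_mul]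
    linarith
  · rw [hG3, hG2, mul_div_cancel_left₀ _ (pow_pos (mul_pos ha hd) 2).ne']
    simp only [smul_dotProduct, add_dotProduct, smul_eq_mul]
    have h1 : (s * (e ⬝ᵥ p) + t * (f ⬝ᵥ p)) ^ 2 + (-t * (e ⬝ᵥ p) + s * (f ⬝ᵥ p)) ^ 2
        = (s ^ 2 + t ^ 2) * ((e ⬝ᵥ p) ^ 2 + (f ⬝ᵥ p) ^ 2) := by ring
    rw [hrot, hst] at h1
    linarith
  · ext i j
    have hxi : ∀ k, x k = a * e k := by
      intro k
      rw [hx]
      simp
    have hyi : ∀ k, y k = c * e k + d * f k := by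
      intro k
      rw [hy]
      simp
    have ha0 := ha.ne'
    have hd0 := hd.ne'
    simp only [PM, hG2, hxx, hxy, hyy, Matrix.smul_apply, Matrix.add_apply, Matrix.sub_apply,
      vecMulVec_apply, smul_eq_mul, Pi.add_apply, Pi.smul_apply, hxi, hyi]
    have h2 : (s * e i + t * f i) * (s * e j + t * f j) + (-t * e i + s * f i) * (-t * e j + s * f j)
        = (s ^ 2 + t ^ 2) * (e i * e j + f i * f j) := by ring
    rw [h2, hst]
    field_simp
    ring
  · intro i j
    have hxi : ∀ k, x k = a * e k := by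
      intro k
      rw [hx]
      simp
    have hyi : ∀ k, y k = c * e k + d * f k := by
      intro k
      rw [hy]
      simp
    rw [hsq]
    simp only [Pi.add_apply, Pi.smul_apply, smul_eq_mul, hxi, hyi]
    have h2 : (s * e i + t * f i) * (-t * e j + s * f j) - (s * e j + t * f j) * (-t * e i + s * f i)
        = (s ^ 2 + t ^ 2) * (e i * f j - e j * f i) := by ring
    rw [h2, hst]
    ring

end LT75
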