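import Pool.Agent.LT75.Onb

/-!
# Module LT-PAIR (MP_7814b8_co, helper75): two planes which nearly meet (`noncancel` is in NC.lean)

Write `g = Aᵀ A` and replace `x k, y k` by `A x k, A y k` (`PM_conj`): `trace (PM g · * g * PM g · * g)`
`= trace (PM 1 X Y * PM 1 X' Y')`, so everything is Euclidean.

`pair_bound`: let `p` be as in `hmeet`, `u, v` and `u', v'` the orthonormal bases of `exists_onb` for `p`.
Then `(u·p)² ≥ (1 - κ)|p|²`, the same for `u'`, `κ = 1/1000`. Normalise `|p| = 1`, choose the signs of `u, u'` such that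
`u·p, u'·p ≥ 0`; `|u - p|² = 2 - 2 u·p ≤ 2κ`, so `|u - u'|² ≤ 8κ`, `u·u' ≥ 1 - 4κ`, `(u·u')² ≥ 1 - 8κ`.
`4 trace (PM PM') = c11² + c12² + c21² + c22²` (`c` the inner products of `u, v` with `u', v'`), and
`(c11 c22 - c12 c21)² ≤ (c11² + c12²)(c22² + c21²) ≤ c22² + c21²` because `c11² + c12² ≤ |u|² = 1` (Bessel). So
`4 trace (PM PM') ≥ c11² + (c11 c22 - c12 c21)²`, and `(c11 c22 - c12 c21)² = (ω·ω')²`, where `ω` is the unit Pluecker
vector `ω_{ij} = (x_i y_j - x_j y_i)/sqrt (2 G2)` in `R^16` (Lagrange identity).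

`noncancel`: sum over pairs: `4 Σ w w' trace ≥ 1 - 8κ + Σ w w' (ω·ω')²`, and with
`Ω_{ab} = Σ w_k ω_k(a) ω_k(b)` (`a, b` in the 16 index pairs) `Σ w w' (ω·ω')² = Σ_{ab} Ω_{ab}² ≥ Σ_a Ω_{aa}² ≥ (Σ_a Ω_aa)²/16`
`= 1/16`. The constant: `(1 + 1/16 - 8/1000)/4 = 2109/8000`.
-/

set_option autoImplicit false

namespace LT75

open Matrix

/-- the unit Pluecker vector of the plane spanned by `x, y` -/
noncomputable def plu (x y : V4) (i j : Fin 4) : ℝ :=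
  (x i * y j - x j * y i) / Real.sqrt (2 * G2 1 x y)

private lemma pair_G2 (x y : V4) :
    G2 1 x y = (x ⬝ᵥ x) * (y ⬝ᵥ y) - (x ⬝ᵥ y) ^ 2 := by
  simp only [G2, ip_one]

private lemma pair_lagrange (x y x' y' : V4) :
    ∑ i, ∑ j, (x i * y j - x j * y i) * (x' i * y' j - x' j * y' i) =
      2 * ((x ⬝ᵥ x') * (y ⬝ᵥ y') - (x ⬝ᵥ y') * (y ⬝ᵥ x')) := by
  simp only [dotProduct, Fin.sum_univ_four]
  ring

theorem plu_norm {x y : V4} (h : 0 < G2 1 x y) : ∑ i, ∑ j, plu x y i j ^ 2 = 1 := by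
  have hs : Real.sqrt (2 * G2 1 x y) ^ 2 = 2 * G2 1 x y := Real.sq_sqrt (by linarith)
  have e1 : ∀ i j, plu x y i j ^ 2 =
      (x i * y j - x j * y i) * (x i * y j - x j * y i) * (1 / (2 * G2 1 x y)) := by
    intro i j
    rw [plu, div_pow, hs]
    ring
  simp only [e1]
  simp only [← Finset.sum_mul]
  rw [pair_lagrange, dotProduct_comm y x]
  have e2 : (x ⬝ᵥ x) * (y ⬝ᵥ y) - (x ⬝ᵥ y) * (x ⬝ᵥ y) = G2 1 x y := by
    rw [pair_G2]
    ring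
  rw [e2]
  field_simp

private lemma pair_plu {x y u v : V4} (h : 0 < G2 1 x y)
    (hc : (∀ i j, x i * y j - x j * y i = Real.sqrt (G2 1 x y) * (u i * v j - u j * v i)) ∨
        (∀ i j, x i * y j - x j * y i = -(Real.sqrt (G2 1 x y) * (u i * v j - u j * v i)))) :
    ∃ s : ℝ, s ^ 2 = 1 / 2 ∧ ∀ i j, plu x y i j = s * (u i * v j - u j * v i) := by
  have h2 : Real.sqrt (2 * G2 1 x y) = Real.sqrt 2 * Real.sqrt (G2 1 x y) :=
    Real.sqrt_mul (by norm_num) _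
  have hG : Real.sqrt (G2 1 x y) ≠ 0 := (Real.sqrt_pos.2 h).ne'
  have h2' : Real.sqrt 2 ≠ 0 := (Real.sqrt_pos.2 (by norm_num)).ne'
  have hsq : Real.sqrt 2 ^ 2 = 2 := Real.sq_sqrt (by norm_num)
  rcases hc with hc | hc
  · refine ⟨1 / Real.sqrt 2, by rw [div_pow, hsq]; norm_num, fun i j => ?_⟩
    rw [plu, hc, h2]
    field_simp
  · refine ⟨-(1 / Real.sqrt 2), by rw [neg_sq, div_pow, hsq]; norm_num, fun i j => ?_⟩
    rw [plu, hc, h2]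
    field_simp

private lemma pair_trace (u v u' v' : V4) :
    ((vecMulVec u u + vecMulVec v v) * (vecMulVec u' u' + vecMulVec v' v')).trace =
      (u ⬝ᵥ u') ^ 2 + (u ⬝ᵥ v') ^ 2 + (v ⬝ᵥ u') ^ 2 + (v ⬝ᵥ v') ^ 2 := by
  simp only [Matrix.trace, Matrix.diag, Matrix.mul_apply, Matrix.add_apply, vecMulVec_apply,
    dotProduct, Fin.sum_univ_four]
  ring

private lemma pair_angle {c a b P : ℝ} (hP : 0 < P) (ha : 999 / 1000 * P ≤ a ^ 2)
    (hb : 999 / 1000 * P ≤ b ^ 2) (hG : 0 ≤ P + 2 * (c * b * a) - b ^ 2 - a ^ 2 - P * c ^ 2) :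
    1 - 8 / 1000 ≤ c ^ 2 := by
  by_cases hc : 1 ≤ |c|
  · have : 1 ≤ |c| ^ 2 := by nlinarith [abs_nonneg c]
    rw [sq_abs] at this
    linarith
  push Not at hc
  have h0 := abs_nonneg c
  have h1 : 2 * (c * b * a) ≤ |c| * (a ^ 2 + b ^ 2) := by
    have h2 : c * b * a ≤ |c| * |a * b| := by
      rw [← abs_mul]
      have : c * b * a = c * (a * b) := by ring
      rw [this]
      exact le_abs_self _
    have h3 : 2 * |a * b| ≤ a ^ 2 + b ^ 2 := by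
      rw [abs_mul]
      nlinarith [sq_nonneg (|a| - |b|), sq_abs a, sq_abs b]
    nlinarith
  have h4 : c ^ 2 = |c| ^ 2 := (sq_abs c).symm
  have h5 : (1 - |c|) * (a ^ 2 + b ^ 2) ≤ P * (1 - |c|) * (1 + |c|) := by
    nlinarith
  have h6 : a ^ 2 + b ^ 2 ≤ P * (1 + |c|) := by
    have h7 : 0 < 1 - |c| := by linarith
    have : (1 - |c|) * (a ^ 2 + b ^ 2) ≤ (1 - |c|) * (P * (1 + |c|)) := by linarith
    exact le_of_mul_le_mul_left this h7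
  have h8 : 998 / 1000 ≤ |c| := by
    by_contra hcon
    push Not at hcon
    nlinarith
  rw [h4]
  nlinarith


theorem pair_bound {x y x' y' p : V4} (h : 0 < G2 1 x y) (h' : 0 < G2 1 x' y') (hp : p ≠ 0)
    (h1 : 1000 * G3 1 x y p ≤ G2 1 x y * ip 1 p p)
    (h2 : 1000 * G3 1 x' y' p ≤ G2 1 x' y' * ip 1 p p) :
    1 - 8 / 1000 + (∑ i, ∑ j, plu x y i j * plu x' y' i j) ^ 2
      ≤ 4 * (PM 1 x y * PM 1 x' y').trace := by
  obtain ⟨u, v, huu, hvv, huv, hvp, hup, hPM, hpl⟩ := exists_onb h p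
  obtain ⟨u', v', huu', hvv', huv', hvp', hup', hPM', hpl'⟩ := exists_onb h' p
  obtain ⟨s, hs, hs2⟩ := pair_plu h hpl
  obtain ⟨s', hs', hs2'⟩ := pair_plu h' hpl'
  rw [ip_one] at h1 h2
  have hP : 0 < p ⬝ᵥ p := by
    have := pd_one.2 p hp
    rwa [ip_one] at this
  have ha : 999 / 1000 * (p ⬝ᵥ p) ≤ (u ⬝ᵥ p) ^ 2 := by
    rw [hup]
    have : G3 1 x y p / G2 1 x y ≤ (p ⬝ᵥ p) / 1000 := by
      rw [div_le_div_iff₀ h (by norm_num)]
      linarith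
    linarith
  have hb : 999 / 1000 * (p ⬝ᵥ p) ≤ (u' ⬝ᵥ p) ^ 2 := by
    rw [hup']
    have : G3 1 x' y' p / G2 1 x' y' ≤ (p ⬝ᵥ p) / 1000 := by
      rw [div_le_div_iff₀ h' (by norm_num)]
      linarith
    linarith
  have hG : 0 ≤ p ⬝ᵥ p + 2 * (u ⬝ᵥ u' * (u' ⬝ᵥ p) * (u ⬝ᵥ p)) - (u' ⬝ᵥ p) ^ 2 - (u ⬝ᵥ p) ^ 2
      - p ⬝ᵥ p * (u ⬝ᵥ u') ^ 2 := by
    have h3 := G3_nonneg pd_one.psd u u' p
    simp only [G3, ip_one, huu, huu'] at h3
    linarith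
  have hang := pair_angle hP ha hb hG
  have hB : (u ⬝ᵥ u') ^ 2 + (u ⬝ᵥ v') ^ 2 ≤ 1 := by
    have h3 := G3_nonneg pd_one.psd u u' v'
    simp only [G3, ip_one, huu, huu', hvv', huv'] at h3
    linarith
  have htr : 4 * (PM 1 x y * PM 1 x' y').trace =
      (u ⬝ᵥ u') ^ 2 + (u ⬝ᵥ v') ^ 2 + (v ⬝ᵥ u') ^ 2 + (v ⬝ᵥ v') ^ 2 := by
    rw [← pair_trace, ← hPM, ← hPM', Matrix.smul_mul, Matrix.mul_smul, smul_smul, Matrix.trace_smul,
      smul_eq_mul]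
    norm_num
  have hω : (∑ i, ∑ j, plu x y i j * plu x' y' i j) ^ 2 =
      ((u ⬝ᵥ u') * (v ⬝ᵥ v') - (u ⬝ᵥ v') * (v ⬝ᵥ u')) ^ 2 := by
    have e1 : ∀ i j, plu x y i j * plu x' y' i j =
        (u i * v j - u j * v i) * (u' i * v' j - u' j * v' i) * (s * s') := by
      intro i j
      rw [hs2, hs2']
      ring
    simp only [e1]
    simp only [← Finset.sum_mul]
    rw [pair_lagrange, mul_pow, mul_pow, mul_pow s, hs, hs']
    ring
  rw [htr, hω]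
  set c11 := u ⬝ᵥ u'
  set c12 := u ⬝ᵥ v'
  set c21 := v ⬝ᵥ u'
  set c22 := v ⬝ᵥ v'
  have hcs : (c11 * c22 - c12 * c21) ^ 2 ≤ (c11 ^ 2 + c12 ^ 2) * (c22 ^ 2 + c21 ^ 2) := by
    nlinarith [sq_nonneg (c11 * c21 + c12 * c22)]
  have hle : (c11 ^ 2 + c12 ^ 2) * (c22 ^ 2 + c21 ^ 2) ≤ 1 * (c22 ^ 2 + c21 ^ 2) :=
    mul_le_mul_of_nonneg_right hB (by positivity)
  nlinarith [sq_nonneg c12]


end LT75
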