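import Pool.Agent.LT75.Select
import Pool.Agent.LT75.BR3

/-!
# Module LT-STAGE (MP_7814b8_co, helper75): the fixed point at stage `ε`

`D = {S | PSD S ∧ S.trace = 1}` is compact (closed; `|S i j| ≤ 1` because `S i j² ≤ S i i * S j j`) , convex and nonempty
(`(1/4) • 1`). For `S ∈ D` put `g S = (S + ε • 1)⁻¹`: positive definite (`PSD.add_pd`, `PD.inv`) and continuous on `D`
(the determinant does not vanish; `A⁻¹ = (det A)⁻¹ • adjugate A`).
For each `S ∈ D`, `hnf`, `exists_admS` and `adm_open` give `i, x, y` and an open `O ∋ S` such that `Adm (g S') (C i) x y`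
for `S' ∈ O ∩ D`. Finite subcover `O 1..O n`, continuous partition of unity `f k ≥ 0`, `∑ f k = 1` on `D`, support in `O k`
(`exists_continuous_sum_one_of_isOpen_isCompact`). All pairs `x k, y k` have `G2 (g S) (x k) (y k) > 0` for all `S ∈ D`
(`G2_pos_transfer`), so `N S = ∑ k, f k S • PM (g S) (x k) (y k)` is continuous on `D`, positive semidefinite, with
positive trace. `Φ S = (1/trace (N S)) • N S` maps `D` into `D`. Brouwer (`brouwer_M4`): `S = Φ S`. Keep the `k` with
`f k S > 0` (reindex the finset by `Fin`), `c = 1/trace (N S)`.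
-/

set_option autoImplicit false

namespace LT75

open Matrix Filter Topology

private theorem stage_cont_ip {X : Type*} [TopologicalSpace X] {h : X → M4} {s : Set X}
    (hh : ContinuousOn h s) (x y : V4) : ContinuousOn (fun a => ip (h a) x y) s := by
  have h1 : Continuous fun A : M4 => ip A x y := by
    unfold ip
    exact Continuous.dotProduct continuous_const
      (Continuous.matrix_mulVec continuous_id continuous_const)
  exact h1.comp_continuousOn hh

private theorem stage_ip_single (S : M4) (i j : Fin 4) :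
    ip S (Pi.single i 1) (Pi.single j 1) = S i j := by
  unfold ip
  rw [Matrix.mulVec_single_one, single_dotProduct]
  simp

private theorem stage_diag {S : M4} (hS : PSD S) (i : Fin 4) : 0 ≤ S i i := by
  have h := hS.2 (Pi.single i 1)
  rwa [stage_ip_single] at h

private theorem stage_diag_le {S : M4} (hS : PSD S) (ht : S.trace = 1) (i : Fin 4) :
    S i i ≤ 1 := by
  rw [← ht, Matrix.trace]
  exact Finset.single_le_sum (f := fun j => S.diag j) (fun j _ => stage_diag hS j)
    (Finset.mem_univ i)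

private theorem stage_entry {S : M4} (hS : PSD S) (ht : S.trace = 1) (i j : Fin 4) :
    S i j ∈ Set.Icc (-1 : ℝ) 1 := by
  have hsym : S j i = S i j := by
    have := congrFun (congrFun hS.1 i) j
    simpa [Matrix.transpose_apply] using this
  have h1 := hS.2 (Pi.single i 1 + Pi.single j 1)
  have h2 := hS.2 (Pi.single i 1 - Pi.single j 1)
  rw [ip_add_left, ip_add_right, ip_add_right, stage_ip_single, stage_ip_single,
    stage_ip_single, stage_ip_single, hsym] at h1
  rw [ip_sub_left, ip_sub_right, ip_sub_right, stage_ip_single, stage_ip_single,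
    stage_ip_single, stage_ip_single, hsym] at h2
  have h3 := stage_diag_le hS ht i
  have h4 := stage_diag_le hS ht j
  constructor <;> linarith

theorem isCompact_D : IsCompact {S : M4 | PSD S ∧ S.trace = 1} := by
  have hK : IsCompact (Set.pi Set.univ
      (fun _ : Fin 4 => Set.pi Set.univ (fun _ : Fin 4 => Set.Icc (-1 : ℝ) 1))) :=
    isCompact_univ_pi fun _ => isCompact_univ_pi fun _ => isCompact_Icc
  have hcl : IsClosed {S : M4 | PSD S ∧ S.trace = 1} := by
    have h1 : IsClosed {S : M4 | Sᵀ = S} :=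
      isClosed_eq continuous_id.matrix_transpose continuous_id
    have h2 : IsClosed {S : M4 | ∀ x : V4, 0 ≤ ip S x x} := by
      have : {S : M4 | ∀ x : V4, 0 ≤ ip S x x} = ⋂ x : V4, {S : M4 | 0 ≤ ip S x x} := by
        ext S; simp
      rw [this]
      refine isClosed_iInter fun x => isClosed_le continuous_const ?_
      unfold ip
      exact Continuous.dotProduct continuous_const
        (Continuous.matrix_mulVec continuous_id continuous_const)
    have h3 : IsClosed {S : M4 | S.trace = 1} :=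
      isClosed_eq continuous_id.matrix_trace continuous_const
    have : {S : M4 | PSD S ∧ S.trace = 1}
        = ({S : M4 | Sᵀ = S} ∩ {S : M4 | ∀ x : V4, 0 ≤ ip S x x}) ∩ {S : M4 | S.trace = 1} := by
      ext S; simp [PSD]
    rw [this]
    exact (h1.inter h2).inter h3
  refine hK.of_isClosed_subset hcl ?_
  intro S hS i _ j _
  exact stage_entry hS.1 hS.2 i j

theorem convex_D : Convex ℝ {S : M4 | PSD S ∧ S.trace = 1} := by
  intro S hS T hT a b ha hb hab
  refine ⟨(hS.1.smul ha).add (hT.1.smul hb), ?_⟩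
  rw [Matrix.trace_add, Matrix.trace_smul, Matrix.trace_smul, hS.2, hT.2]
  simpa using hab

private theorem stage_nonempty : {S : M4 | PSD S ∧ S.trace = 1}.Nonempty := by
  refine ⟨(1 / 4 : ℝ) • (1 : M4), ?_, ?_⟩
  · refine PSD.smul ?_ (by norm_num)
    refine ⟨Matrix.transpose_one, fun x => ?_⟩
    unfold ip
    rw [Matrix.one_mulVec]
    exact Finset.sum_nonneg fun i _ => mul_self_nonneg _
  · rw [Matrix.trace_smul, Matrix.trace_one]
    simp

private theorem stage_inv_cont {ε : ℝ} {S : M4} (hd : (S + ε • (1 : M4)).det ≠ 0) :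
    ContinuousAt (fun T : M4 => (T + ε • (1 : M4))⁻¹) S := by
  have h0 : Continuous fun T : M4 => T + ε • (1 : M4) := continuous_id.add continuous_const
  have h1 : (fun T : M4 => (T + ε • (1 : M4))⁻¹)
      = fun T : M4 => ((T + ε • (1 : M4)).det)⁻¹ • (T + ε • (1 : M4)).adjugate := by
    funext T
    rw [Matrix.inv_def, Ring.inverse_eq_inv']
  rw [h1]
  have h2 : ContinuousAt (fun T : M4 => ((T + ε • (1 : M4)).det)⁻¹) S :=
    ContinuousAt.inv₀ h0.matrix_det.continuousAt hd
  have h3 : ContinuousAt (fun T : M4 => (T + ε • (1 : M4)).adjugate) S :=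
    h0.matrix_adjugate.continuousAt
  exact h2.smul h3

private theorem stage_PM_cont {X : Type*} [TopologicalSpace X] {h : X → M4} {s : Set X}
    (hh : ContinuousOn h s) {x y : V4} (hpos : ∀ a ∈ s, 0 < G2 (h a) x y) :
    ContinuousOn (fun a => PM (h a) x y) s := by
  have hxx := stage_cont_ip hh x x
  have hyy := stage_cont_ip hh y y
  have hxy := stage_cont_ip hh x y
  have hG : ContinuousOn (fun a => G2 (h a) x y) s := by
    unfold G2
    exact (hxx.mul hyy).sub (hxy.pow 2)
  unfold PM
  have h1 : ContinuousOn (fun a => 1 / (2 * G2 (h a) x y)) s := by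
    refine ContinuousOn.div continuousOn_const (continuousOn_const.mul hG) ?_
    intro a ha
    have := hpos a ha
    positivity
  have h2 : ContinuousOn (fun a => ip (h a) y y • vecMulVec x x
      - ip (h a) x y • (vecMulVec x y + vecMulVec y x) + ip (h a) x x • vecMulVec y y) s :=
    ((hyy.smul continuousOn_const).sub (hxy.smul continuousOn_const)).add
      (hxx.smul continuousOn_const)
  exact h1.smul h2

theorem stage {ι : Type} {η : ℝ} (hη : 0 < η) (C : ι → Set V4) (hC : ∀ i, Body η (C i))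
    (hnf : ∀ g, PD g → ∃ i, ¬ Fat g (C i)) (ε : ℝ) (hε : 0 < ε) :
    ∃ (S : M4) (c : ℝ) (n : ℕ) (w : Fin n → ℝ) (i : Fin n → ι) (x y : Fin n → V4),
      PSD S ∧ S.trace = 1 ∧ (∀ k, 0 < w k) ∧ ∑ k, w k = 1 ∧
      (∀ k, Adm (S + ε • (1 : M4))⁻¹ (C (i k)) (x k) (y k)) ∧
      S = c • ∑ k, w k • PM (S + ε • (1 : M4))⁻¹ (x k) (y k) := by
  classical
  set D : Set M4 := {S : M4 | PSD S ∧ S.trace = 1} with hD
  -- the local data at each point of `D`
  have hPD : ∀ S ∈ D, PD (S + ε • (1 : M4)) := fun S hS => hS.1.add_pd hε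
  have hgPD : ∀ S ∈ D, PD (S + ε • (1 : M4))⁻¹ := fun S hS => (hPD S hS).inv
  have hdet : ∀ S ∈ D, (S + ε • (1 : M4)).det ≠ 0 := fun S hS =>
    ne_of_gt (hPD S hS).posDef.det_pos
  have hloc : ∀ S : D, ∃ (i : ι) (x y : V4) (O : Set M4), IsOpen O ∧ (S : M4) ∈ O ∧
      ∀ T ∈ O, Adm (T + ε • (1 : M4))⁻¹ (C i) x y := by
    intro S
    obtain ⟨i, hi⟩ := hnf _ (hgPD S S.2)
    obtain ⟨x, y, hxy⟩ := exists_admS hη (hC i) (hgPD S S.2) hi
    have hev := adm_open (hC i) (hgPD S S.2) hxy
    have hev2 := (stage_inv_cont (hdet S S.2)).eventually hev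
    obtain ⟨O, hO1, hO2, hO3⟩ := eventually_nhds_iff.mp hev2
    exact ⟨i, x, y, O, hO2, hO3, fun T hT => hO1 T hT⟩
  choose i₀ x₀ y₀ O hOo hOm hOadm using hloc
  obtain ⟨t, ht⟩ := isCompact_D.elim_finite_subcover O hOo
    (fun S hS => Set.mem_iUnion.mpr ⟨⟨S, hS⟩, hOm ⟨S, hS⟩⟩)
  let e : Fin t.card ≃ t := t.equivFin.symm
  have hcov : D ⊆ ⋃ k : Fin t.card, O (e k : D) := by
    intro S hS
    obtain ⟨a, ha⟩ := Set.mem_iUnion.mp (ht hS)
    obtain ⟨ha1, ha2⟩ := Set.mem_iUnion.mp ha
    refine Set.mem_iUnion.mpr ⟨e.symm ⟨a, ha1⟩, ?_⟩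
    simpa using ha2
  have : LocallyCompactSpace M4 :=
    inferInstanceAs (LocallyCompactSpace (Fin 4 → Fin 4 → ℝ))
  obtain ⟨f, hf1, hf2, hf3, -⟩ := exists_continuous_sum_one_of_isOpen_isCompact
    (s := fun k : Fin t.card => O (e k : D)) (fun k => hOo _) isCompact_D hcov
  -- positivity of the Gram determinants
  have hGpos : ∀ S ∈ D, ∀ k : Fin t.card,
      0 < G2 (S + ε • (1 : M4))⁻¹ (x₀ (e k : D)) (y₀ (e k : D)) := by
    intro S hS k
    have h1 := (hOadm (e k : D) _ (hOm (e k : D))).pos
    exact G2_pos_transfer (hgPD _ (e k : D).2).psd (hgPD S hS) h1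
  let N : M4 → M4 := fun S =>
    ∑ k, f k S • PM (S + ε • (1 : M4))⁻¹ (x₀ (e k : D)) (y₀ (e k : D))
  have hsum : ∀ S ∈ D, ∑ k, f k S = 1 := by
    intro S hS
    have := hf2 hS
    simpa using this
  have hgc : ContinuousOn (fun S : M4 => (S + ε • (1 : M4))⁻¹) D := fun S hS =>
    (stage_inv_cont (hdet S hS)).continuousWithinAt
  have hNc : ContinuousOn N D := by
    refine continuousOn_finsetSum _ fun k _ => ?_
    exact (f k).continuous.continuousOn.smul (stage_PM_cont hgc fun S hS => hGpos S hS k)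
  have hNpsd : ∀ S ∈ D, PSD (N S) := by
    intro S hS
    refine PSD.sum _ _ fun k _ => ?_
    exact (PM_psd (hgPD S hS).psd (hGpos S hS k)).smul (hf3 k S).1
  have hNtr : ∀ S ∈ D, 0 < (N S).trace := by
    intro S hS
    have h1 : (N S).trace
        = ∑ k, f k S * (PM (S + ε • (1 : M4))⁻¹ (x₀ (e k : D)) (y₀ (e k : D))).trace := by
      simp only [N, Matrix.trace_sum, Matrix.trace_smul, smul_eq_mul]
    rw [h1]
    have hex : ∃ k ∈ (Finset.univ : Finset (Fin t.card)), 0 < f k S := by
      by_contra hcon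
      push Not at hcon
      have : ∑ k, f k S ≤ 0 := Finset.sum_nonpos hcon
      rw [hsum S hS] at this
      linarith
    obtain ⟨k, hk, hk0⟩ := hex
    refine Finset.sum_pos' (fun k _ => ?_) ⟨k, hk, ?_⟩
    · exact mul_nonneg (hf3 k S).1 (PM_trace_pos (hgPD S hS).psd (hGpos S hS k)).le
    · exact mul_pos hk0 (PM_trace_pos (hgPD S hS).psd (hGpos S hS k))
  -- Brouwer
  obtain ⟨S, hS, hfix⟩ := brouwer_M4 D isCompact_D convex_D stage_nonempty
    (fun S => (1 / (N S).trace) • N S)
    (by
      have h1 : ContinuousOn (fun S => 1 / (N S).trace) D := by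
        refine ContinuousOn.div continuousOn_const ?_ fun S hS => (hNtr S hS).ne'
        exact (continuous_id.matrix_trace).comp_continuousOn hNc
      exact h1.smul hNc)
    (by
      intro S hS
      refine ⟨(hNpsd S hS).smul (by have := hNtr S hS; positivity), ?_⟩
      rw [Matrix.trace_smul, smul_eq_mul]
      have := hNtr S hS
      field_simp)
  -- keep the indices with positive weight
  let s : Finset (Fin t.card) := Finset.univ.filter fun k => 0 < f k S
  let e' : Fin s.card ≃ s := s.equivFin.symm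
  have hzero : ∀ k, k ∉ s → f k S = 0 := by
    intro k hk
    have h1 : ¬ 0 < f k S := by simpa [s] using hk
    have h2 := (hf3 k S).1
    linarith
  have hpos : ∀ k : s, 0 < f k S := by
    intro k
    exact (Finset.mem_filter.mp k.2).2
  refine ⟨S, 1 / (N S).trace, s.card, fun k => f (e' k) S,
    fun k => i₀ (e (e' k : Fin t.card) : D), fun k => x₀ (e (e' k : Fin t.card) : D),
    fun k => y₀ (e (e' k : Fin t.card) : D), hS.1, hS.2, fun k => hpos (e' k), ?_, ?_, ?_⟩
  · have h1 : ∑ k : Fin s.card, f (e' k : Fin t.card) S = ∑ k : s, f (k : Fin t.card) S :=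
      Equiv.sum_comp e' (fun k : s => f (k : Fin t.card) S)
    rw [h1, Finset.sum_coe_sort s (fun k => f k S), ← hsum S hS]
    exact Finset.sum_subset (Finset.subset_univ s) fun k _ hk => hzero k hk
  · intro k
    refine hOadm _ _ ?_
    refine hf1 (e' k : Fin t.card) (subset_tsupport _ ?_)
    exact (hpos (e' k)).ne'
  · have h1 : ∑ k : Fin s.card, f (e' k : Fin t.card) S •
        PM (S + ε • (1 : M4))⁻¹ (x₀ (e (e' k : Fin t.card) : D)) (y₀ (e (e' k : Fin t.card) : D))
        = N S := by
      have h2 := Equiv.sum_comp e' (fun k : s => f (k : Fin t.card) S •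
        PM (S + ε • (1 : M4))⁻¹ (x₀ (e (k : Fin t.card) : D)) (y₀ (e (k : Fin t.card) : D)))
      rw [h2, Finset.sum_coe_sort s (fun k => f k S •
        PM (S + ε • (1 : M4))⁻¹ (x₀ (e k : D)) (y₀ (e k : D)))]
      refine Finset.sum_subset (Finset.subset_univ s) fun k _ hk => ?_
      rw [hzero k hk, zero_smul]
    rw [h1]
    exact hfix.symm

end LT75
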