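import Pool.Agent.LT75.Stage
import Pool.Agent.LT75.NC

/-!
# Module LT-STAGEH (MP_7814b8_co, helper75): consequences of the fixed point equation at one stage

Let `S, c, w, i, x, y` be as in `stage`, `g = (S + ε)⁻¹`, `Γ = ε • g`, `N = ∑ w k • PM g (x k) (y k)`, `S = c • N`.
`g * (S + ε) = 1`, so `S * g = 1 - Γ`, `g * S = 1 - Γ`. Trace of `S g = c • N g`: `PM_trace` gives `4 - tr Γ = c`.
`noncancel` (points `p ∈ C (i k) ∩ C (i l)`, `Adm.thin`): `2109/8000 ≤ tr (N g N g)`, so
`tr (S g S g) ≥ c² * 2109/8000`. On the other hand `tr (S g S g) = tr ((1-Γ)(1-Γ)) = tr (1-Γ) - tr (Γ (1-Γ))` and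
`tr (Γ (1 - Γ)) = ε tr (g S g) ≥ 0` (`g S g` is PSD). So `c² * 2109/8000 ≤ c`, `c > 0` (`tr S = 1`, `tr N > 0`), hence
`c ≤ 8000/2109 < 3.8`, `tr Γ = 4 - c ≥ 1/5`.
`PSD (1 - Γ)`: `1 - Γ = S g`; for `v`, put `u = g v`: `v·(1-Γ)v = ((S+ε)u)·(S u) = |S u|² + ε u·S u ≥ 0`.
`φ j = ∑_{k, i k = j} w k`, `H j = (2 ε) • ∑_{k, i k = j} w k • (g * PM g (x k) (y k) * g)`.
* `H0`: `PM_psd`. * `H1`: `2 ip (g PM g) z z ≤ ip g z z` by `PM_quad` and `G3_nonneg`.
* `sum`: `∑ H = 2 ε g N g`, `c • ∑ H = 2 ε g S g = 2 Γ (1 - Γ)`.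
* `thin`: `PM_quad` and `Adm.thin`: `2 ip (g PM g) z z = gzz - G3/G2 ≥ (1 - 1/1000) gzz` for `z ∈ C (i k)`.
The pair with `1/4 ≤ trace`: `1 = tr S = c ∑ w k tr PM`, `c ≤ 4`.
-/

set_option autoImplicit false

namespace LT75

open Matrix

structure StageH {ι : Type} [Fintype ι] (C : ι → Set V4) (ε : ℝ) (S Γ : M4) (φ : ι → ℝ)
    (H : ι → M4) : Prop where
  hS : PSD S
  trS : S.trace = 1
  hΓ : PSD Γ
  hΓ1 : PSD (1 - Γ)
  hmul : Γ * (S + ε • (1 : M4)) = ε • (1 : M4)
  trΓ : 1 / 5 ≤ Γ.trace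
  φ0 : ∀ i, 0 ≤ φ i
  φ1 : ∑ i, φ i = 1
  H0 : ∀ i, PSD (H i)
  H1 : ∀ i, PSD (φ i • Γ - H i)
  sum : (4 - Γ.trace) • ∑ i, H i = (2 : ℝ) • (Γ - Γ * Γ)
  thin : ∀ i, ∀ z ∈ C i, (1 - 1 / 1000) * (φ i * ip Γ z z) ≤ ip (H i) z z

theorem sh_ip_sandwich {g : M4} (hg : gᵀ = g) (M : M4) (x y : V4) :
    ip (g * M * g) x y = ip M (g *ᵥ x) (g *ᵥ y) := by
  unfold ip
  rw [← mulVec_mulVec, ← mulVec_mulVec, dotProduct_mulVec, ← mulVec_transpose, hg]

theorem sh_psd_sandwich {g M : M4} (hg : gᵀ = g) (hM : PSD M) : PSD (g * M * g) := by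
  refine ⟨?_, ?_⟩
  · rw [transpose_mul, transpose_mul, hg, hM.1, mul_assoc]
  · intro x
    rw [sh_ip_sandwich hg]
    exact hM.2 _

theorem sh_diag (M : M4) (j : Fin 4) : ip M (Pi.single j 1) (Pi.single j 1) = M j j := by
  unfold ip
  simp

theorem sh_trace_nonneg {M : M4} (hM : PSD M) : 0 ≤ M.trace := by
  unfold Matrix.trace
  apply Finset.sum_nonneg
  intro j _
  have := hM.2 (Pi.single j 1)
  rw [sh_diag] at this
  exact this

theorem stageH {ι : Type} [Fintype ι] {η : ℝ} (hη : 0 < η) (C : ι → Set V4)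
    (hC : ∀ i, Body η (C i)) (hmeet : ∀ i j, (C i ∩ C j).Nonempty)
    (hnf : ∀ g, PD g → ∃ i, ¬ Fat g (C i)) (ε : ℝ) (hε : 0 < ε) :
    ∃ (S g : M4) (φ : ι → ℝ) (H : ι → M4), PD g ∧ StageH C ε S (ε • g) φ H ∧
      ∃ i x y, Adm g (C i) x y ∧ 1 / 4 ≤ (PM g x y).trace := by
  classical
  obtain ⟨S, c, n, w, i, x, y, hS, htr, hw, hw1, hadm, hSeq⟩ := stage hη C hC hnf ε hε
  have hQ : PD (S + ε • (1 : M4)) := hS.add_pd hε
  set Q : M4 := S + ε • (1 : M4) with hQdef
  have hg : PD Q⁻¹ := hQ.inv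
  have hdet : IsUnit Q.det := hQ.posDef.det_pos.ne'.isUnit
  have hgQ : Q⁻¹ * Q = 1 := nonsing_inv_mul Q hdet
  have hQg : Q * Q⁻¹ = 1 := mul_nonsing_inv Q hdet
  set g : M4 := Q⁻¹ with hgdef
  have hgs : gᵀ = g := hg.1
  have hSg : S * g = 1 - ε • g := by
    have : S = Q - ε • (1 : M4) := by rw [hQdef]; simp
    rw [this, sub_mul, hQg, smul_mul_assoc, one_mul]
  have hgS : g * S = 1 - ε • g := by
    have : S = Q - ε • (1 : M4) := by rw [hQdef]; simp
    rw [this, mul_sub, hgQ, mul_smul_comm, mul_one]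
  set N : M4 := ∑ k, w k • PM g (x k) (y k) with hN
  have hposk : ∀ k, 0 < G2 g (x k) (y k) := fun k => (hadm k).pos
  -- the trace
  have hNg : (N * g).trace = 1 := by
    rw [hN, Finset.sum_mul, Matrix.trace_sum]
    rw [← hw1]
    apply Finset.sum_congr rfl
    intro k _
    rw [smul_mul_assoc, trace_smul, PM_trace hgs (hposk k).ne', smul_eq_mul, mul_one]
  have hSgt : (S * g).trace = c := by
    rw [hSeq, smul_mul_assoc, trace_smul, hNg, smul_eq_mul, mul_one]
  have hΓt : (ε • g).trace = 4 - c := by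
    have h1 := hSgt
    rw [hSg, trace_sub, trace_one] at h1
    simp only [Fintype.card_fin] at h1
    push_cast at h1
    linarith
  have hNpsd : PSD N := PSD.sum _ _ fun k _ => (PM_psd hg.psd (hposk k)).smul (hw k).le
  have hNt : 0 ≤ N.trace := sh_trace_nonneg hNpsd
  have hcN : c * N.trace = 1 := by
    rw [← htr]
    nth_rewrite 1 [hSeq]
    rw [trace_smul, smul_eq_mul]
  have hc0 : 0 < c := by
    by_contra h
    push Not at h
    nlinarith
  have hΓ : PSD (ε • g) := hg.psd.smul hε.le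
  have hΓt0 : 0 ≤ (ε • g).trace := sh_trace_nonneg hΓ
  -- non-cancellation
  have hnc := noncancel hg w (fun k => (hw k).le) hw1 x y hposk (by
    intro k l
    obtain ⟨p, hp1, hp2⟩ := hmeet (i k) (i l)
    exact ⟨p, (hC (i k)).ne_zero hp1, (hadm k).thin p hp1, (hadm l).thin p hp2⟩)
  rw [← hN] at hnc
  have hSS : (S * g * (S * g)).trace = c ^ 2 * (N * g * (N * g)).trace := by
    have : S * g * (S * g) = (c ^ 2) • (N * g * (N * g)) := by
      rw [hSeq]
      simp only [smul_mul_assoc, mul_smul_comm, smul_smul]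
      rw [pow_two]
    rw [this, trace_smul, smul_eq_mul]
  have hSS2 : (S * g * (S * g)).trace = c - ε * (g * S * g).trace := by
    have : S * g * (S * g) = S * g - ε • (g * S * g) := by
      nth_rewrite 1 [hSg]
      rw [sub_mul, one_mul, smul_mul_assoc, mul_assoc g S g]
    rw [this, trace_sub, hSgt, trace_smul, smul_eq_mul]
  have hgSg : 0 ≤ (g * S * g).trace := sh_trace_nonneg (sh_psd_sandwich hgs hS)
  have hc1 : c ^ 2 * (2109 / 8000) ≤ c := by
    have h1 : c ^ 2 * (2109 / 8000) ≤ c ^ 2 * (N * g * (N * g)).trace :=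
      mul_le_mul_of_nonneg_left hnc (sq_nonneg c)
    have h2 := mul_nonneg hε.le hgSg
    linarith
  have hc2 : c * (2109 / 8000) ≤ 1 := by
    have : c * (c * (2109 / 8000)) ≤ c * 1 := by nlinarith
    exact le_of_mul_le_mul_left this hc0
  -- `PSD (1 - Γ)`
  have hΓ1 : PSD (1 - ε • g) := by
    refine ⟨?_, ?_⟩
    · rw [transpose_sub, transpose_one, transpose_smul, hgs]
    · intro v
      set u := g *ᵥ v with hu
      have hv : v = Q *ᵥ u := by rw [hu, mulVec_mulVec, hQg, one_mulVec]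
      have h1 : (1 - ε • g) *ᵥ v = S *ᵥ u := by
        rw [← hSg, hu, mulVec_mulVec]
      unfold ip
      rw [h1, hv, hQdef, add_mulVec, smul_mulVec, one_mulVec, add_dotProduct, smul_dotProduct,
        smul_eq_mul]
      have h2 : 0 ≤ (S *ᵥ u) ⬝ᵥ (S *ᵥ u) := by
        unfold dotProduct
        exact Finset.sum_nonneg fun j _ => mul_self_nonneg _
      have h3 := mul_nonneg hε.le (hS.2 u)
      unfold ip at h3
      linarith
  -- one summand
  have hquad : ∀ k z, 2 * ip (g * PM g (x k) (y k) * g) z z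
      = ip g z z - G3 g (x k) (y k) z / G2 g (x k) (y k) := fun k z =>
    PM_quad hgs (hposk k).ne' z
  set wt : ι → Fin n → ℝ := fun j k => if i k = j then w k else 0 with hwt
  have hwt0 : ∀ j k, 0 ≤ wt j k := by
    intro j k
    simp only [hwt]
    split_ifs
    · exact (hw k).le
    · exact le_rfl
  refine ⟨S, g, fun j => ∑ k, wt j k, fun j => (2 * ε) • ∑ k, wt j k • (g * PM g (x k) (y k) * g),
    hg, ?_, ?_⟩
  · constructor
    · exact hS
    · exact htr
    · exact hΓ
    · exact hΓ1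
    · rw [smul_mul_assoc, hgQ]
    · rw [hΓt]
      linarith
    · intro j
      exact Finset.sum_nonneg fun k _ => hwt0 j k
    · rw [Finset.sum_comm, ← hw1]
      apply Finset.sum_congr rfl
      intro k _
      simp [hwt]
    · intro j
      apply PSD.smul _ (by positivity)
      exact PSD.sum _ _ fun k _ => (sh_psd_sandwich hgs (PM_psd hg.psd (hposk k))).smul (hwt0 j k)
    · intro j
      have : (∑ k, wt j k) • ε • g - (2 * ε) • ∑ k, wt j k • (g * PM g (x k) (y k) * g)
          = ∑ k, wt j k • (ε • g - (2 * ε) • (g * PM g (x k) (y k) * g)) := by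
        rw [Finset.sum_smul, Finset.smul_sum, ← Finset.sum_sub_distrib]
        apply Finset.sum_congr rfl
        intro k _
        rw [smul_sub, smul_comm (2 * ε)]
      rw [this]
      apply PSD.sum
      intro k _
      apply PSD.smul _ (hwt0 j k)
      refine ⟨?_, ?_⟩
      · rw [transpose_sub, transpose_smul, transpose_smul, hgs,
          (sh_psd_sandwich hgs (PM_psd hg.psd (hposk k))).1]
      · intro z
        rw [ip_sub_mat, ip_smul_mat, ip_smul_mat]
        have h1 := hquad k z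
        have h2 : 0 ≤ G3 g (x k) (y k) z / G2 g (x k) (y k) :=
          div_nonneg (G3_nonneg hg.psd _ _ _) (hposk k).le
        have h3 : ε * ip g z z - 2 * ε * ip (g * PM g (x k) (y k) * g) z z
            = ε * (G3 g (x k) (y k) z / G2 g (x k) (y k)) := by
          have : 2 * ε * ip (g * PM g (x k) (y k) * g) z z
            = ε * (2 * ip (g * PM g (x k) (y k) * g) z z) := by ring
          rw [this, h1]
          ring
        rw [h3]
        exact mul_nonneg hε.le h2
    · have h1 : ∑ j, (2 * ε) • ∑ k, wt j k • (g * PM g (x k) (y k) * g)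
          = (2 * ε) • (g * N * g) := by
        rw [← Finset.smul_sum, Finset.sum_comm]
        congr 1
        rw [hN, Finset.mul_sum, Finset.sum_mul]
        apply Finset.sum_congr rfl
        intro k _
        rw [← Finset.sum_smul]
        have : ∑ j, wt j k = w k := by simp [hwt]
        rw [this, mul_smul_comm, smul_mul_assoc]
      rw [h1, hΓt]
      have h2 : (4 - (4 - c)) • (2 * ε) • (g * N * g) = (2 * ε) • (g * S * g) := by
        nth_rewrite 1 [hSeq]
        rw [mul_smul_comm, smul_mul_assoc, smul_comm, sub_sub_cancel]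
      rw [h2, mul_assoc g S g, hSg, mul_sub, mul_one, mul_smul_comm, smul_mul_assoc, mul_smul_comm,
        mul_smul, smul_sub]
    · intro j z hz
      rw [ip_smul_mat, ip_smul_mat, ip_sum_mat, Finset.sum_mul, Finset.mul_sum, Finset.mul_sum]
      apply Finset.sum_le_sum
      intro k _
      rw [ip_smul_mat]
      by_cases hk : i k = j
      · have h1 := hquad k z
        have h2 : G3 g (x k) (y k) z / G2 g (x k) (y k) ≤ ip g z z / 1000 := by
          rw [div_le_div_iff₀ (hposk k) (by norm_num)]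
          have := (hadm k).thin z (by rw [hk]; exact hz)
          linarith
        have h3 : 2 * ε * (wt j k * ip (g * PM g (x k) (y k) * g) z z)
            = wt j k * (ε * (2 * ip (g * PM g (x k) (y k) * g) z z)) := by ring
        rw [h3, h1]
        have h4 : (1 - 1 / 1000) * (wt j k * (ε * ip g z z))
            = wt j k * (ε * (ip g z z - ip g z z / 1000)) := by ring
        rw [h4]
        apply mul_le_mul_of_nonneg_left _ (hwt0 j k)
        apply mul_le_mul_of_nonneg_left _ hε.le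
        linarith
      · have : wt j k = 0 := by simp [hwt, hk]
        rw [this]
        simp
  · by_contra hcon
    push Not at hcon
    have h1 : N.trace < 1 / 4 := by
      have h2 : N.trace = ∑ k, w k * (PM g (x k) (y k)).trace := by
        rw [hN, Matrix.trace_sum]
        apply Finset.sum_congr rfl
        intro k _
        rw [trace_smul, smul_eq_mul]
      have hne : (Finset.univ : Finset (Fin n)).Nonempty := by
        by_contra h
        rw [Finset.not_nonempty_iff_eq_empty] at h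
        rw [h] at hw1
        simp at hw1
      rw [h2]
      calc ∑ k, w k * (PM g (x k) (y k)).trace < ∑ k, w k * (1 / 4) := by
            apply Finset.sum_lt_sum_of_nonempty hne
            intro k _
            exact mul_lt_mul_of_pos_left (hcon (i k) (x k) (y k) (hadm k)) (hw k)
        _ = 1 / 4 := by rw [← Finset.sum_mul, hw1, one_mul]
    have h2 : c ≤ 4 := by linarith
    nlinarith

end LT75
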